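import Mathlib

/-!
# MP_89a3f8_ag: flips of klt pairs directed by a big divisor

Theorem (`result`): let `X_0 ⇢ X_1 ⇢ ⋯` be a sequence of flips over `S` of klt pairs `(X_i, Δ_i)` of
dimension `n ≥ 4` with rational boundaries, and `M` a ℚ-divisor of `X_0` which is big over `S`, such
that `M = -(K + Δ)` or `(K + Δ_i + M_i) · R_i ≤ 0` for all but finitely many `i`. Suppose that
* `dim S ≥ n - 4`, or
* `n = 5`, `S` is arbitrary, for example a point, and there is an effective ℚ-divisor `E` on `X_0`
  (for example `E = 0`), whose components have coefficients at least one in `Δ + E` (for example `E`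
  integral, or `Δ + E = ⌈Δ⌉`), such that `(K + Δ_i + E_i) · R_i < 0`, for example `E_i · R_i ≤ 0`,
  for all but finitely many `i`, and either `E` has Iitaka dimension at least one, or the orbifold
  fundamental group of the quasi-projective pair `(X_0 ∖ E, Δ_0)` has a complex linear
  representation with infinite image.
Then only finitely many of the images `T_i` of the flipping loci in `S` have dimension `≥ n - 5`.
So there is no infinite sequence of this kind for `n = 4`, where `S` may be a point, and for `n = 5`;
and none, for every `n`, if the fibres over `S` of the two exceptional loci of each flip have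
dimensions with sum at most four. If `Δ` is rational, `K + Δ` is not pseudo-effective over `S` and
`dim S = n - 1` then `M = -(K + Δ)` satisfies the condition.

Let `K + Δ` be not pseudo-effective over `S`. For the minimal model program with scaling of any
divisor `A` which is big over `S` the divisor `K + Δ_i + λ_i A_i` is nef over `S` and trivial on
`R_i`, where `λ_i ≥ τ` for a rational number `τ > 0`, and one may take `M = τ A`. If a multiple of
`K + Δ + M` is effective of Iitaka dimension at least one then one may take it as `E`.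

The published facts used are recorded, one by one, in two structures:

* `BigTheory`: the Q-factorial klt pairs of dimension five which are isomorphic in codimension one
  to a fixed one with a divisor `M` as above, and their flips;
* `Tower`: klt pairs of all dimensions over all bases, their restrictions to the inverse images of
  very general hyperplane sections of the base, their products with a curve, Q-factorialisations
  in dimension five.

Everything else is proved here:

* the local volumes are bounded below and the Cartier indices are bounded along a sequence of flips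
  (`index_bounded`);
* `meets_finite`: if `D` is effective and `(K + Δ_i + D_i) · R_i < 0` for all `i` then only finitely
  many flipping loci meet the support of `D_i` (the argument with the ascending chain condition for
  local log canonical thresholds, where special termination comes from Fujino's termination of
  canonical fourfold flips and the bounded indices);
* `values_finite`: a pencil of such divisors defines a rational function `h` which
  is regular and not zero on the flipping loci `C_i` for large `i`, and `h(C_i)` is finite;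
* `values_fixed`: these values lie in a fixed finite set, the values of `h` on those families of
  rational curves of bounded degree on which `h` has only finitely many values;
* `no_open`: if `π_1(X ∖ E)` has an infinite linear image: (a cover of) the complement of `E` in the
  first model after which the flipping loci are disjoint from `E` has a morphism to a
  quasi-projective variety of positive dimension which contracts all subvarieties with finite
  fundamental group; it is a morphism on all later models, and contracts all flipping rays, as klt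
  singularities have finite local fundamental groups; so the members of a pencil are zero on them;
* the reduction to `n = 5` by cutting the base or by multiplication with a curve.

Notation: `φ : X → Z`, `φ⁺ : X⁺ → Z` are the two contractions of a flip, `C` and `C⁺` their
exceptional loci, `R` is the flipping ray.
-/

set_option autoImplicit false

namespace Pool.Agent.Results.MP_89a3f8_ag.DirectedByBig

/-- the ascending chain condition -/
def ACC (A : Set ℝ) : Prop := ¬ ∃ t : ℕ → ℝ, StrictMono t ∧ ∀ n, t n ∈ A

/-- The Q-factorial klt pairs `(X, Δ)` of dimension five, projective over a quasi-projective variety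
`S` (which may be a point) over the complex numbers, which are isomorphic in codimension one to a
fixed one with rational boundary and with a ℚ-divisor `M` which is big over `S`, and their flips
over `S`. Divisors and rational functions are the same for all of them. -/
structure BigTheory where
  /-- the pairs -/
  Pair : Type
  /-- the points of `X` -/
  Pt : Pair → Type
  /-- the flips over `S` -/
  Flip : Pair → Pair → Type
  /-- the exceptional locus `C` of `φ` -/
  exc : ∀ {P P' : Pair}, Flip P P' → Set (Pt P)
  exc_nonempty : ∀ {P P' : Pair} (f : Flip P P'), (exc f).Nonempty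
  /-- `(K + Δ + M) · R ≤ 0`, that is `M ≡ c (K + Δ)` over `Z` with `c ≥ -1` -/
  Adm : ∀ {P P' : Pair}, Flip P P' → Prop
  /-- the effective ℚ-divisors `D` all of whose components have coefficients at least one in `Δ + D`,
  for example the integral effective divisors -/
  Div : Type
  /-- the support of the transform on `X` -/
  supp : ∀ P, Div → Set (Pt P)
  /-- `(K + Δ + D) · R < 0` -/
  Neg : ∀ {P P' : Pair}, Flip P P' → Div → Prop
  /-- the log canonical threshold at `x` of `D` with respect to `(X, Δ)` -/
  lct : ∀ P, Div → Pt P → WithTop ℝ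
  /-- `(X, Δ)` is klt -/
  lct_pos : ∀ P D x, 0 < lct P D x
  /-- the coefficient of a component of `D` in `Δ + D` is at least one -/
  lct_le_one : ∀ P D, ∀ x ∈ supp P D, lct P D x ≤ 1
  /-- the local threshold is a constructible function -/
  lct_finite : ∀ P D, (Set.range (lct P D)).Finite
  /-- `Δ` and `D` are rational -/
  lct_rational : ∀ P D x (t : ℝ), lct P D x = t → ∃ q : ℚ, (q : ℝ) = t
  /-- `X` and `X⁺` are isomorphic outside `C` and `C⁺`; `(K + Δ + t D) · R < 0` for `0 ≤ t ≤ 1`, so
  by the negativity lemma the local threshold at a point of `C⁺` is at least the one at some point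
  of `C` (if all thresholds at the points of a fibre of `φ` are larger than one then `D` does not
  meet this fibre) -/
  lct_flip : ∀ {P P' : Pair} (f : Flip P P') (D : Div) (y : Pt P'), Neg f D →
    (∃ x, lct P D x = lct P' D y) ∨ ∃ x ∈ exc f, lct P D x ≤ lct P' D y
  /-- the ascending chain condition for log canonical thresholds (Hacon, McKernan, Xu 2014); the
  coefficients of `Δ` and of `D` are the same for all pairs -/
  acc : ∀ D : Div, ACC {t : ℝ | ∃ P, ∃ x, lct P D x = t}
  /-- `N > 0` and `N (K + Δ)` and `N D` are Cartier for all integral divisors `D` -/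
  Index : Pair → ℕ → Prop
  /-- the dlt pairs with rational boundary of dimension at most four induced on log canonical
  centres -/
  Cen : Type
  /-- their flips whose exceptional loci lie where the pair is klt -/
  CenFlip : Cen → Cen → Prop
  /-- `N > 0` and `N (K + Δ)` is Cartier on the centre -/
  CenIndex : Cen → ℕ → Prop
  cenIndex_pos : ∀ c N, CenIndex c N → 0 < N
  /-- the number of exceptional divisors over the klt locus with log discrepancy at most one, and
  the sum of their log discrepancies -/
  low : Cen → ℕ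
  lowSum : Cen → ℝ
  /-- all log discrepancies are multiples of `1 / N` -/
  lowSum_mem : ∀ c N, CenIndex c N → ∃ k : ℕ, N * lowSum c = k
  /-- log discrepancies do not decrease, so no new divisor has log discrepancy at most one -/
  low_flip : ∀ c c', CenFlip c c' → low c' ≤ low c
  /-- if their number stays the same then so do the divisors, and their log discrepancies do not
  decrease -/
  lowSum_flip : ∀ c c', CenFlip c c' → low c' = low c → lowSum c ≤ lowSum c'
  lowSum_le : ∀ c, lowSum c ≤ low c
  /-- Kawamata 1992 in dimension at most three, Fujino 2004 (termination of canonical fourfold flips)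
  in dimension four: flips which do not change the log discrepancies at most one lift to flips of
  the Q-factorial terminalisations over the klt locus (Birkar, Cascini, Hacon, McKernan 2010).
  Fujino's proof also works over a base and on an open set: the difficulty is local, and for the
  flips of type `(2, 1)` the homology group may be replaced by its part of weight `-4`. -/
  fujino : ∀ c : ℕ → Cen, (∀ i, low (c (i + 1)) = low (c i)) →
    (∀ i, lowSum (c (i + 1)) = lowSum (c i)) → ¬ ∀ i, CenFlip (c i) (c (i + 1))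
  /-- special termination (Shokurov 2003; Fujino 2007; for log canonical pairs Birkar 2007): if the
  flips are also flips for `K + Δ_i + t D_i`, `(X_i, Δ_i + t D_i)` is log canonical near the
  exceptional loci, `t` is rational, and infinitely many loci meet its non-klt locus, then some log
  canonical centre of a dlt modification has an infinite sequence of flips. Those of its members
  which belong to dlt modifications of the `(X_i, Δ_i + t D_i)` have bounded indices, by
  adjunction. The pairs need not be log canonical elsewhere (restrict to the open sets where they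
  are). -/
  special : ∀ (P : ℕ → Pair) (f : ∀ i, Flip (P i) (P (i + 1))) (D : Div) (t : ℝ),
    (∀ i, Neg (f i) D) → 0 ≤ t → t ≤ 1 → (∃ q : ℚ, (q : ℝ) = t) → (∃ N, ∀ i, Index (P i) N) →
    (∀ i, ∀ x ∈ exc (f i), (t : WithTop ℝ) ≤ lct (P i) D x) →
    (∀ N, ∃ i ≥ N, ∃ x ∈ exc (f i), lct (P i) D x = t) →
    ∃ c : ℕ → Cen, (∀ i, CenFlip (c i) (c (i + 1))) ∧ ∃ N', ∀ j, ∃ i ≥ j, CenIndex (c i) N'
  /-- the divisorial valuations with centre on `X` -/
  Val : Type
  /-- the log discrepancy -/
  ld : Pair → Val → ℝ
  /-- the supremum of the orders of vanishing of the members of a graded linear series of `M` of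
  positive volume, which comes from a compactification; it is the same series for all pairs -/
  ord : Pair → Val → ℝ
  ord_nonneg : ∀ P v, 0 ≤ ord P v
  /-- the negativity lemma; the orders of vanishing of the same sections change by `-c` times the
  change of the log discrepancy, where `M ≡ c (K + Δ)` over `Z` and `c ≥ -1` -/
  ld_flip : ∀ {P P' : Pair} (f : Flip P P'), Adm f → ∀ v,
    ld P v ≤ ld P' v ∧ ord P' v - ord P v ≤ ld P' v - ld P v
  /-- the alpha invariant of a klt pair is positive -/
  alpha : ∀ P, ∃ a : ℝ, 0 < a ∧ ∀ v, a * ord P v ≤ ld P v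
  /-- the volume of the series -/
  vol : ℝ
  vol_pos : 0 < vol
  /-- the local volume of the singularity (Li 2018) -/
  lvol : ∀ P, Pt P → ℝ
  /-- the local-to-global inequality (Fujita 2018; Liu 2018) -/
  liu : ∀ P (a : ℝ), 0 < a → (∀ v, a * ord P v ≤ ld P v) → ∀ x, a ^ 5 * vol ≤ lvol P x
  /-- the local Cartier indices of Weil divisors are at most `5 ^ 5 / lvol` (Xu, Zhuang 2021) -/
  xu_zhuang : ∀ δ : ℝ, 0 < δ → ∃ N, ∀ P, (∀ x, δ ≤ lvol P x) → Index P N
  /-- two linearly independent sections `s`, `t` of a divisor -/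
  Pencil : Type
  /-- the divisor of `s - τ t` -/
  mem : Pencil → ℂ → Div
  /-- the divisor of `t` -/
  infty : Pencil → Div
  /-- the divisors are linearly equivalent -/
  neg_mem : ∀ (e : Pencil) {P P' : Pair} (f : Flip P P'), Neg f (infty e) → ∀ τ, Neg f (mem e τ)
  /-- `D` has Iitaka dimension at least one: some integral divisor with the same support as `D` has
  two linearly independent sections -/
  Mobile : Div → Prop
  /-- these sections; if the support of `D` is disjoint from `C` then the components of `D` have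
  intersection number zero with `R` -/
  multiple : ∀ D, Mobile D → ∃ e : Pencil, ∀ {P P' : Pair} (f : Flip P P'),
    Disjoint (exc f) (supp P D) → Neg f (infty e)
  /-- There is a representation `π_1(X_reg ∖ Supp (Δ + D)) → GL_N(ℂ)` with infinite image, and for
  every component `F` of `Δ` which is not a component of `D` there is an integer `m ≥ 1` such that
  the coefficient of `F` is at least `1 - 1 / m` and the `m`-th power of a small loop around `F` is
  mapped to the identity. For example a representation of `π_1(X_reg ∖ Supp D)` (`m = 1`). This is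
  the same condition for all pairs, which are isomorphic in codimension one. -/
  InfOrb : Div → Prop
  /-- The smooth quasi-projective varieties `W` with a proper birational morphism `W → Y`, where `Y` is
  normal, `Y → X ∖ Supp D` is a finite Galois cover, étale in codimension one outside `Supp Δ`, and
  `K_Y + Δ_Y` is the pull-back of `K + Δ`, with `Δ_Y` effective. So `(Y, Δ_Y)` is klt. -/
  Res : Pair → Div → Type
  /-- `π_1(W)` has a complex linear representation with infinite image -/
  InfPi : ∀ {P : Pair} {D : Div}, Res P D → Prop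
  /-- Selberg 1960: a normal torsion free subgroup of finite index of the image defines a finite
  Galois cover `Y → X ∖ Supp D`; its ramification index over a component of `Δ` is the order of the
  image of the loop, so `Δ_Y` is effective. By Braun 2021, Theorem 1, the local fundamental groups
  of `Y_reg` are finite, so they have trivial images, and the local system extends to `Y` and its
  resolutions. -/
  braun : ∀ (P : Pair) (D : Div), InfOrb D → ∃ W : Res P D, InfPi W
  /-- the dominant rational maps `Ψ` to projective varieties of positive dimension -/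
  Target : Type
  /-- The composition of `W → X` and `Ψ` is a morphism, and contracts all closed irreducible
  subvarieties of `W` such that the fundamental group of the normalisation has finite image in
  `π_1(W)`. -/
  Contracts : ∀ {P : Pair} {D : Div}, Res P D → Target → Prop
  /-- If `π_1(W)` has a linear representation with infinite image then a finite étale cover of `W` has
  a nonconstant morphism of this kind to a quasi-projective variety: the quasi-Albanese morphism
  (Iitaka 1976) if some subgroup of finite index has infinite abelianisation; otherwise there is a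
  semisimple representation with infinite image which is unbounded over some `p`-adic field, or is
  the monodromy of a polarised `ℤ`-variation of Hodge structure (Simpson 1992; Mochizuki 2006), and
  the morphism is the reduction map of Cadorel, Deng, Yamanoi 2022, or the period map, with
  quasi-projective image by Bakker, Brunebarbe, Tsimerman 2023, Theorem 1.1. Covers of `W` come from
  covers of `Y` (Takayama 2003, Theorem 1.1); pass to a Galois cover of `X ∖ Supp D`, to the product
  of the conjugates, and to the quotient of its image. -/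
  fibration : ∀ {P : Pair} {D : Div} (W : Res P D), InfPi W → ∃ (W' : Res P D) (Ψ : Target),
    Contracts W' Ψ
  /-- The covers of `X ∖ Supp D` and `X⁺ ∖ Supp D` agree, `W'` has proper birational morphisms to `W`
  and to the cover of `X⁺ ∖ Supp D`, and its fundamental group is that of `W`. -/
  common : ∀ {P P' : Pair} (f : Flip P P') (D : Div) (W : Res P D) (Ψ : Target),
    Disjoint (exc f) (supp P D) → Contracts W Ψ → ∃ W' : Res P' D, Contracts W' Ψ
  /-- the rational map `Ψ` is defined near `C` and contracts the curves of the flipping ray -/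
  Over : ∀ {P P' : Pair}, Target → Flip P P' → Prop
  /-- The fibres of `W → Y`, and of `W → Z'`, where `Y → Z' → Z` is the Stein factorisation near
  `φ(C)`, have simply connected neighbourhoods (Kollár 1993; Takayama 2003, Theorem 1.1), since `Y`
  and `Z'` are klt with suitable boundaries. So `Ψ` is a morphism on `X ∖ Supp D` and contracts the
  curves of the flipping ray. -/
  takayama : ∀ {P P' : Pair} (f : Flip P P') (D : Div) (W : Res P D) (Ψ : Target),
    Disjoint (exc f) (supp P D) → Contracts W Ψ → Over Ψ f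
  /-- the pencil of the pull-backs of the members of a pencil of hyperplane sections of the target:
  near `C` these are pull-backs of Cartier divisors, which are zero on the flipping ray -/
  pullback : ∀ Ψ : Target, ∃ e : Pencil, ∀ {P P' : Pair} (f : Flip P P'), Over Ψ f →
    Neg f (infty e)
  /-- the value of the rational function `h = s / t`, at the points outside the divisor of `t` -/
  h : Pencil → ∀ P, Pt P → ℂ
  mem_iff : ∀ (e : Pencil) P (x : Pt P), x ∉ supp P (infty e) → ∀ τ, x ∈ supp P (mem e τ) ↔
    h e P x = τ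
  /-- Chevalley: the image of `C` is constructible -/
  chevalley : ∀ (e : Pencil) {P P' : Pair} (f : Flip P P'), Disjoint (exc f) (supp P (infty e)) →
    (h e P '' exc f).Finite ∨ ((h e P '' exc f)ᶜ).Finite
  /-- Write `M` as `A + F` on `X`, up to ℚ-linear equivalence, `A` ample over `S`, `F ≥ 0`, and let
  `0 < δ ≤ 1` be such that `(X, Δ + δ F)` is klt. These are the rational curves of `A`-degree at
  most `10 / δ` in the fibres of `X → S` which do not meet the divisors of `s` and `t`; so `h` is
  constant on such a curve. -/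
  Curve : Pencil → Pair → Type
  /-- the value of `h` -/
  val : ∀ {e P}, Curve e P → ℂ
  /-- the irreducible components of the scheme of these curves, which is of finite type -/
  Comp : Pencil → Pair → Type
  comp_finite : ∀ e P, Finite (Comp e P)
  comp : ∀ {e P}, Curve e P → Comp e P
  /-- the strict transform on `X_i` of the curve `Γ` of `X_0` is contracted by `φ_i` -/
  Contracted : ∀ {e P₀} {P P' : Pair}, Flip P P' → Curve e P₀ → Prop
  /-- Suppose that `h` is regular and not zero on all exceptional loci `C_i`. Let `τ` be in `h(C_i)`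
  but not in `h(C_j)` for `j < i`, so that `X_i = X_0` near the fibre `h = τ`. Since `K + Δ` and
  `K + Δ + M` are not positive on the curves contracted by `φ_i`, nor is `K + Δ + δ M`. So
  `-(K + Δ + δ F) = δ A - (K + Δ + δ M)` is ample over `Z_i` near this fibre, and some rational curve
  `Γ` in it is contracted by `φ_i` and `δ A · Γ ≤ -(K + Δ + δ F) · Γ ≤ 10` (Kawamata 1991). -/
  bend : ∀ (e : Pencil) (P : ℕ → Pair) (f : ∀ i, Flip (P i) (P (i + 1))), (∀ i, Adm (f i)) →
    (∀ i, Disjoint (exc (f i)) (supp (P i) (mem e 0))) →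
    (∀ i, Disjoint (exc (f i)) (supp (P i) (infty e))) →
    ∀ i, ∀ τ ∈ h e (P i) '' exc (f i), (∀ j < i, τ ∉ h e (P j) '' exc (f j)) →
    ∃ Γ : Curve e (P 0), val Γ = τ ∧ Contracted (f i) Γ
  /-- Suppose moreover that all `h(C_i)` are finite. The degree of the pull-back of an ample divisor
  of `Z_i` is constant in an irreducible family of curves, over the open set where `X_i = X_0`; and
  contracted curves lie in the exceptional locus. -/
  family : ∀ (e : Pencil) (P : ℕ → Pair) (f : ∀ i, Flip (P i) (P (i + 1))),
    (∀ i, Disjoint (exc (f i)) (supp (P i) (mem e 0))) →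
    (∀ i, Disjoint (exc (f i)) (supp (P i) (infty e))) →
    (∀ i, (h e (P i) '' exc (f i)).Finite) → ∀ (i) (Γ Γ' : Curve e (P 0)), comp Γ = comp Γ' →
    (∀ j < i, val Γ ∉ h e (P j) '' exc (f j)) → (∀ j < i, val Γ' ∉ h e (P j) '' exc (f j)) →
    Contracted (f i) Γ → Contracted (f i) Γ' ∧ val Γ' ∈ h e (P i) '' exc (f i)

variable (T : BigTheory)

/-! ### Bounded Cartier indices -/

theorem index_bounded (P : ℕ → T.Pair) (f : ∀ i, T.Flip (P i) (P (i + 1)))
    (hadm : ∀ i, T.Adm (f i)) : ∃ N, ∀ i, T.Index (P i) N := by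
  obtain ⟨a0, ha0, halpha⟩ := T.alpha (P 0)
  set a := min a0 1 with ha
  have hapos : 0 < a := lt_min ha0 one_pos
  have hkeep : ∀ i v, a * T.ord (P i) v ≤ T.ld (P i) v := by
    intro i
    induction i with
    | zero =>
      intro v
      exact (mul_le_mul_of_nonneg_right (min_le_left _ _) (T.ord_nonneg _ _)).trans (halpha v)
    | succ i ih =>
      intro v
      obtain ⟨h1, h2⟩ := T.ld_flip (f i) (hadm i) v
      have h3 : a * (T.ld (P (i + 1)) v - T.ld (P i) v) ≤ T.ld (P (i + 1)) v - T.ld (P i) v :=
        mul_le_of_le_one_left (sub_nonneg.2 h1) (min_le_right _ _)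
      have h4 := ih v
      have h5 : a * (T.ord (P (i + 1)) v - T.ord (P i) v) ≤
          a * (T.ld (P (i + 1)) v - T.ld (P i) v) := mul_le_mul_of_nonneg_left h2 hapos.le
      rw [mul_sub] at h5
      linarith
  obtain ⟨N, hN⟩ := T.xu_zhuang (a ^ 5 * T.vol) (mul_pos (pow_pos hapos 5) T.vol_pos)
  exact ⟨N, fun i => hN (P i) (T.liu (P i) a hapos (hkeep i))⟩

/-! ### Thresholds -/

theorem eventually_const (u : ℕ → ℕ) (h : Antitone u) : ∃ N, ∀ i ≥ N, u i = u N := by
  obtain ⟨N, hN⟩ := Nat.sInf_mem (Set.range_nonempty u)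
  refine ⟨N, fun i hi => le_antisymm (h hi) ?_⟩
  rw [hN]
  exact Nat.sInf_le ⟨i, rfl⟩

/-- no infinite sequence of flips of log canonical centres has a subsequence of bounded index -/
theorem no_cen (c : ℕ → T.Cen) (hc : ∀ i, T.CenFlip (c i) (c (i + 1))) (N : ℕ)
    (hN : ∀ j, ∃ i ≥ j, T.CenIndex (c i) N) : False := by
  -- the number of divisors is finally constant
  have hanti : Antitone fun i => T.low (c i) :=
    antitone_nat_of_succ_le fun i => T.low_flip _ _ (hc i)
  obtain ⟨i0, hlow⟩ := eventually_const _ hanti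
  -- then the sum of the log discrepancies is monotone and bounded
  have hmono : ∀ i ≥ i0, ∀ j ≥ i, T.lowSum (c i) ≤ T.lowSum (c j) := by
    intro i hi j hj
    induction j, hj using Nat.le_induction with
    | base => exact le_rfl
    | succ j hj ih =>
      exact ih.trans (T.lowSum_flip _ _ (hc j) ((hlow (j + 1) (by omega)).trans
        (hlow j (by omega)).symm))
  have hbd : ∀ i ≥ i0, T.lowSum (c i) ≤ T.low (c i0) := by
    intro i hi
    have h1 := T.lowSum_le (c i)
    rwa [hlow i hi] at h1
  -- and it lies in `(1 / N) ℤ` infinitely often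
  have hN0 : 0 < (N : ℝ) := by
    obtain ⟨i, -, hi⟩ := hN 0
    exact_mod_cast T.cenIndex_pos (c i) N hi
  let K : Set ℕ := {k | ∃ i ≥ i0, T.CenIndex (c i) N ∧ (N : ℝ) * T.lowSum (c i) = k}
  have hKb : ∀ k ∈ K, k ≤ N * T.low (c i0) := by
    rintro k ⟨i, hi, -, hk⟩
    have h2 : (N : ℝ) * T.lowSum (c i) ≤ N * T.low (c i0) :=
      mul_le_mul_of_nonneg_left (hbd i hi) hN0.le
    rw [hk] at h2
    exact_mod_cast h2
  have hKne : K.Nonempty := by
    obtain ⟨i, hi, hidx⟩ := hN i0
    obtain ⟨k, hk⟩ := T.lowSum_mem _ _ hidx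
    exact ⟨k, i, hi, hidx, hk⟩
  have hKf : K.Finite := (Set.finite_Iic (N * T.low (c i0))).subset hKb
  obtain ⟨m, ⟨j0, hj0, -, hm⟩, hmax⟩ := Set.exists_max_image K id hKf hKne
  have hconst : ∀ i ≥ j0, T.lowSum (c i) = T.lowSum (c j0) := by
    intro i hi
    refine le_antisymm ?_ (hmono j0 hj0 i hi)
    obtain ⟨i', hi', hidx⟩ := hN i
    refine (hmono i (by omega) i' hi').trans ?_
    obtain ⟨k, hk⟩ := T.lowSum_mem _ _ hidx
    have h1 : k ≤ m := hmax k ⟨i', by omega, hidx, hk⟩
    have h2 : (N : ℝ) * T.lowSum (c i') ≤ N * T.lowSum (c j0) := by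
      rw [hk, hm]
      exact_mod_cast h1
    exact le_of_mul_le_mul_left h2 hN0
  refine T.fujino (fun i => c (j0 + i)) (fun i => ?_) (fun i => ?_) fun i => hc (j0 + i)
  · exact (hlow _ (by omega)).trans (hlow _ (by omega)).symm
  · exact (hconst _ (by omega)).trans (hconst _ (by omega)).symm

theorem special_termination (P : ℕ → T.Pair) (f : ∀ i, T.Flip (P i) (P (i + 1)))
    (hI : ∃ N, ∀ i, T.Index (P i) N) (D : T.Div) (hD : ∀ i, T.Neg (f i) D) (t : ℝ) (ht : 0 ≤ t)
    (ht1 : t ≤ 1) (hr : ∃ q : ℚ, (q : ℝ) = t)
    (h : ∀ i, ∀ x ∈ T.exc (f i), (t : WithTop ℝ) ≤ T.lct (P i) D x) :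
    ∃ N, ∀ i ≥ N, ∀ x ∈ T.exc (f i), (t : WithTop ℝ) < T.lct (P i) D x := by
  by_contra hcon
  have hcon' : ∀ N, ∃ i ≥ N, ∃ x ∈ T.exc (f i), T.lct (P i) D x = t := by
    intro N
    by_contra hN
    refine hcon ⟨N, fun i hi x hx => lt_of_le_of_ne (h i x hx) fun he => ?_⟩
    exact hN ⟨i, hi, x, hx, he.symm⟩
  obtain ⟨c, hc, N', hN'⟩ := T.special P f D t hD ht ht1 hr hI h hcon'
  exact no_cen T c hc N' hN'

/-- one step of the argument with thresholds -/
theorem raise (P : ℕ → T.Pair) (f : ∀ i, T.Flip (P i) (P (i + 1)))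
    (hI : ∃ N, ∀ i, T.Index (P i) N) (D : T.Div) (hD : ∀ i, T.Neg (f i) D)
    (hm : ∀ N, ∃ i ≥ N, ∃ x ∈ T.exc (f i), x ∈ T.supp (P i) D) (t : ℝ) (ht : 0 ≤ t)
    (ht1 : t ≤ 1) (hr : ∃ q : ℚ, (q : ℝ) = t) (N : ℕ)
    (h : ∀ i ≥ N, ∀ x ∈ T.exc (f i), (t : WithTop ℝ) ≤ T.lct (P i) D x) :
    ∃ t' : ℝ, t < t' ∧ t' ≤ 1 ∧ (∃ q : ℚ, (q : ℝ) = t') ∧ (∃ i x, T.lct (P i) D x = t') ∧
      ∃ N', ∀ i ≥ N', ∀ x ∈ T.exc (f i), (t' : WithTop ℝ) ≤ T.lct (P i) D x := by
  obtain ⟨M, hM⟩ := special_termination T (fun i => P (N + i)) (fun i => f (N + i))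
    (hI.imp fun _ h i => h (N + i)) D (fun i => hD (N + i)) t ht ht1 hr
    (fun i => h (N + i) (Nat.le_add_right N i))
  obtain ⟨N', hN', x0, hx0, hs0⟩ := hm (N + M)
  have h1 : ∀ i ≥ N', ∀ x ∈ T.exc (f i), (t : WithTop ℝ) < T.lct (P i) D x := by
    intro i hi
    obtain ⟨j, rfl⟩ := Nat.exists_eq_add_of_le (le_trans (Nat.le_add_right N M) (hN'.trans hi))
    exact hM j (by omega)
  have hfin : {v | v ∈ Set.range (T.lct (P N') D) ∧ (t : WithTop ℝ) < v}.Finite :=
    (T.lct_finite (P N') D).subset fun v hv => hv.1
  have hne : {v | v ∈ Set.range (T.lct (P N') D) ∧ (t : WithTop ℝ) < v}.Nonempty :=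
    ⟨_, ⟨x0, rfl⟩, h1 N' le_rfl x0 hx0⟩
  obtain ⟨v, ⟨⟨xv, hxv⟩, htv⟩, hmin⟩ := Set.exists_min_image _ id hfin hne
  have hv1 : v ≤ 1 := (hmin _ ⟨⟨x0, rfl⟩, h1 N' le_rfl x0 hx0⟩).trans (T.lct_le_one _ _ _ hs0)
  have hvtop : v ≠ ⊤ := by
    rintro rfl
    exact absurd hv1 (not_le.2 (WithTop.coe_lt_top (1 : ℝ)))
  obtain ⟨t', rfl⟩ := WithTop.ne_top_iff_exists.1 hvtop
  have hprop : ∀ i ≥ N', ∀ y : T.Pt (P i),
      T.lct (P i) D y ≤ (t : WithTop ℝ) ∨ (t' : WithTop ℝ) ≤ T.lct (P i) D y := by
    intro i hi
    induction i, hi using Nat.le_induction with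
    | base =>
      intro y
      rcases le_or_gt (T.lct (P N') D y) (t : WithTop ℝ) with hy | hy
      · exact Or.inl hy
      · exact Or.inr (hmin _ ⟨⟨y, rfl⟩, hy⟩)
    | succ i hi ih =>
      intro y
      rcases T.lct_flip (f i) D y (hD i) with ⟨x, hx⟩ | ⟨x, hx, hxy⟩
      · rw [← hx]
        exact ih x
      · right
        refine le_trans ?_ hxy
        rcases ih x with h2 | h2
        · exact absurd (h1 i hi x hx) (not_lt.2 h2)
        · exact h2
  refine ⟨t', WithTop.coe_lt_coe.1 htv, by exact_mod_cast hv1, T.lct_rational (P N') D xv t' hxv,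
    ⟨N', xv, hxv⟩, N', ?_⟩
  intro i hi x hx
  rcases hprop i hi x with h2 | h2
  · exact absurd (h1 i hi x hx) (not_lt.2 h2)
  · exact h2

/-- **Thresholds**: if `D` is effective and `(K + Δ_i + D_i) · R_i < 0` for all `i` then only
finitely many flipping loci meet the support of `D_i`. -/
theorem meets_finite (P : ℕ → T.Pair) (f : ∀ i, T.Flip (P i) (P (i + 1)))
    (hI : ∃ N, ∀ i, T.Index (P i) N) (D : T.Div) (hD : ∀ i, T.Neg (f i) D) :
    ∃ N, ∀ i ≥ N, Disjoint (T.exc (f i)) (T.supp (P i) D) := by
  by_contra hcon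
  have hm : ∀ N, ∃ i ≥ N, ∃ x ∈ T.exc (f i), x ∈ T.supp (P i) D := by
    intro N
    by_contra hN
    refine hcon ⟨N, fun i hi => Set.disjoint_left.2 fun x hx hx' => hN ⟨i, hi, x, hx, hx'⟩⟩
  let A := {q : ℝ × ℕ // 0 ≤ q.1 ∧ q.1 ≤ 1 ∧ (∃ r : ℚ, (r : ℝ) = q.1) ∧
    ∀ i ≥ q.2, ∀ x ∈ T.exc (f i), (q.1 : WithTop ℝ) ≤ T.lct (P i) D x}
  have step : ∀ q : A, ∃ q' : A, q.1.1 < q'.1.1 ∧ ∃ i x, T.lct (P i) D x = q'.1.1 := by
    rintro ⟨⟨t, N⟩, ht, ht1, hr, hN⟩
    obtain ⟨t', h1, h1', hr', h2, N', h3⟩ := raise T P f hI D hD hm t ht ht1 hr N hN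
    exact ⟨⟨⟨t', N'⟩, ht.trans h1.le, h1', hr', h3⟩, h1, h2⟩
  choose g hg1 hg2 using step
  let q0 : A := ⟨⟨0, 0⟩, le_rfl, zero_le_one, ⟨0, Rat.cast_zero⟩,
    fun i _ x _ => (T.lct_pos (P i) D x).le⟩
  refine T.acc D ⟨fun n => (g^[n + 1] q0).1.1, ?_, ?_⟩
  · refine strictMono_nat_of_lt_succ fun n => ?_
    rw [Function.iterate_succ_apply' g (n + 1) q0]
    exact hg1 _
  · intro n
    obtain ⟨i, x, hx⟩ := hg2 (g^[n] q0)
    rw [← Function.iterate_succ_apply' g n q0] at hx
    exact ⟨P i, x, hx⟩

/-! ### Pencils -/

/-- The function `h` of a pencil of divisors with `(K + Δ_i + D_i) · R_i < 0` is regular and not zero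
on the flipping loci for large `i`, and it takes only finitely many values on each of them. -/
theorem values_finite (P : ℕ → T.Pair) (f : ∀ i, T.Flip (P i) (P (i + 1)))
    (hI : ∃ N, ∀ i, T.Index (P i) N) (e : T.Pencil) (he : ∀ i, T.Neg (f i) (T.infty e)) :
    ∃ N, ∀ i ≥ N, Disjoint (T.exc (f i)) (T.supp (P i) (T.mem e 0)) ∧
      Disjoint (T.exc (f i)) (T.supp (P i) (T.infty e)) ∧ (T.h e (P i) '' T.exc (f i)).Finite := by
  have hmem : ∀ τ i, T.Neg (f i) (T.mem e τ) := fun τ i => T.neg_mem e (f i) (he i) τ
  obtain ⟨N0, h0⟩ := meets_finite T P f hI (T.mem e 0) (hmem 0)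
  obtain ⟨N1, h1⟩ := meets_finite T P f hI (T.infty e) he
  by_contra hcon
  let I : Set ℕ := {i | N0 ≤ i ∧ N1 ≤ i ∧ ¬ (T.h e (P i) '' T.exc (f i)).Finite}
  have hI' : ∀ N, ∃ i ≥ N, i ∈ I := by
    intro N
    by_contra hN
    refine hcon ⟨max N (max N0 N1), fun i hi => ?_⟩
    have hi0 : N0 ≤ i := (le_max_left N0 N1).trans ((le_max_right N _).trans hi)
    have hi1 : N1 ≤ i := (le_max_right N0 N1).trans ((le_max_right N _).trans hi)
    refine ⟨h0 i hi0, h1 i hi1, ?_⟩
    by_contra hf
    exact hN ⟨i, (le_max_left N _).trans hi, hi0, hi1, hf⟩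
  have hcount : (⋃ i ∈ I, (T.h e (P i) '' T.exc (f i))ᶜ).Countable := by
    refine (Set.to_countable I).biUnion fun i hi => ?_
    exact ((T.chevalley e (f i) (h1 i hi.2.1)).resolve_left hi.2.2).countable
  obtain ⟨τ, hτ⟩ : ∃ τ, τ ∉ ⋃ i ∈ I, (T.h e (P i) '' T.exc (f i))ᶜ := by
    by_contra hall
    push Not at hall
    exact not_countable_complex (hcount.mono fun τ _ => hall τ)
  obtain ⟨N2, h2⟩ := meets_finite T P f hI (T.mem e τ) (hmem τ)
  obtain ⟨i, hi, hiI⟩ := hI' N2
  have hτi : τ ∈ T.h e (P i) '' T.exc (f i) := by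
    by_contra hn
    exact hτ (Set.mem_biUnion hiI hn)
  obtain ⟨x, hx, hxτ⟩ := hτi
  have hxi : x ∉ T.supp (P i) (T.infty e) := Set.disjoint_left.1 (h1 i hiI.2.1) hx
  exact Set.disjoint_left.1 (h2 i hi) hx ((T.mem_iff e (P i) x hxi τ).2 hxτ)

/-- **The values lie in a fixed finite set.** -/
theorem values_fixed (P : ℕ → T.Pair) (f : ∀ i, T.Flip (P i) (P (i + 1)))
    (hadm : ∀ i, T.Adm (f i)) (e : T.Pencil)
    (h0 : ∀ i, Disjoint (T.exc (f i)) (T.supp (P i) (T.mem e 0)))
    (h1 : ∀ i, Disjoint (T.exc (f i)) (T.supp (P i) (T.infty e)))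
    (hfin : ∀ i, (T.h e (P i) '' T.exc (f i)).Finite) :
    ∃ V : Set ℂ, V.Finite ∧ ∀ i, T.h e (P i) '' T.exc (f i) ⊆ V := by
  have := T.comp_finite e (P 0)
  let F : T.Comp e (P 0) → Set ℂ := fun c => {τ | ∃ Γ : T.Curve e (P 0), T.comp Γ = c ∧ T.val Γ = τ}
  let B : Set (T.Comp e (P 0)) := {c | (F c).Finite}
  refine ⟨⋃ c ∈ B, F c, (Set.toFinite B).biUnion fun c hc => hc, fun i τ hτ => ?_⟩
  classical
  have hex : ∃ k, τ ∈ T.h e (P k) '' T.exc (f k) := ⟨i, hτ⟩
  obtain ⟨Γ, hΓ, hc⟩ := T.bend e P f hadm h0 h1 (Nat.find hex) τ (Nat.find_spec hex)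
    fun j hj => Nat.find_min hex hj
  refine Set.mem_biUnion (x := T.comp Γ) ?_ ⟨Γ, rfl, hΓ⟩
  -- otherwise the exceptional locus would have infinitely many values
  have hfin' : (T.h e (P (Nat.find hex)) '' T.exc (f (Nat.find hex)) ∪
      ⋃ j ∈ Finset.range (Nat.find hex), T.h e (P j) '' T.exc (f j)).Finite :=
    (hfin _).union (Set.Finite.biUnion (Finset.finite_toSet _) fun j _ => hfin j)
  refine hfin'.subset ?_
  rintro σ ⟨Γ', hΓ', rfl⟩
  by_cases hj : ∀ j < Nat.find hex, T.val Γ' ∉ T.h e (P j) '' T.exc (f j)
  · left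
    exact (T.family e P f h0 h1 hfin _ Γ Γ' hΓ'.symm (by
      rw [hΓ]
      exact fun j hj => Nat.find_min hex hj) hj hc).2
  · right
    push Not at hj
    obtain ⟨j, hj1, hj2⟩ := hj
    exact Set.mem_biUnion (Finset.mem_coe.2 (Finset.mem_range.2 hj1)) hj2

/-- **Dimension five**: no infinite sequence of flips with `(K + Δ_i + M_i) · R_i ≤ 0` has
`(K + Δ_i + E_i) · R_i < 0` for the members of a pencil. -/
theorem no_sequence (P : ℕ → T.Pair) (f : ∀ i, T.Flip (P i) (P (i + 1)))
    (hadm : ∀ i, T.Adm (f i)) (e : T.Pencil) (he : ∀ i, T.Neg (f i) (T.infty e)) : False := by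
  have hI := index_bounded T P f hadm
  obtain ⟨N, hN⟩ := values_finite T P f hI e he
  obtain ⟨V, hV, hV'⟩ := values_fixed T (fun i => P (N + i)) (fun i => f (N + i))
    (fun i => hadm (N + i)) e (fun i => (hN (N + i) (Nat.le_add_right N i)).1)
    (fun i => (hN (N + i) (Nat.le_add_right N i)).2.1)
    (fun i => (hN (N + i) (Nat.le_add_right N i)).2.2)
  have hτ : ∀ τ, ∃ M, ∀ i ≥ M, N ≤ i → τ ∉ T.h e (P i) '' T.exc (f i) := by
    intro τ
    obtain ⟨M, hM⟩ := meets_finite T P f hI (T.mem e τ) fun i => T.neg_mem e (f i) (he i) τ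
    refine ⟨M, fun i hi hNi hmem => ?_⟩
    obtain ⟨x, hx, hxτ⟩ := hmem
    exact Set.disjoint_left.1 (hM i hi) hx
      ((T.mem_iff e (P i) x (Set.disjoint_left.1 (hN i hNi).2.1 hx) τ).2 hxτ)
  choose M hM using hτ
  obtain ⟨b, hb⟩ := (hV.image M).bddAbove
  obtain ⟨x, hx⟩ := T.exc_nonempty (f (N + b))
  have hxV : T.h e (P (N + b)) x ∈ V := hV' b ⟨x, hx, rfl⟩
  exact hM _ (N + b) (le_trans (hb (Set.mem_image_of_mem M hxV)) (Nat.le_add_left b N))
    (Nat.le_add_right N b) ⟨x, hx, rfl⟩

/-- The same for an effective divisor of Iitaka dimension at least one. -/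
theorem no_mobile (P : ℕ → T.Pair) (f : ∀ i, T.Flip (P i) (P (i + 1)))
    (hadm : ∀ i, T.Adm (f i)) (D : T.Div) (hD : T.Mobile D) (hneg : ∀ i, T.Neg (f i) D) :
    False := by
  obtain ⟨e, he⟩ := T.multiple D hD
  obtain ⟨N, hN⟩ := meets_finite T P f (index_bounded T P f hadm) D hneg
  exact no_sequence T (fun i => P (N + i)) (fun i => f (N + i)) (fun i => hadm (N + i)) e
    fun i => he (f (N + i)) (hN (N + i) (Nat.le_add_right N i))

/-- The same for an effective divisor `D` such that the orbifold fundamental group of `X ∖ D` has a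
linear representation with infinite image. -/
theorem no_open (P : ℕ → T.Pair) (f : ∀ i, T.Flip (P i) (P (i + 1)))
    (hadm : ∀ i, T.Adm (f i)) (D : T.Div) (hD : T.InfOrb D) (hneg : ∀ i, T.Neg (f i) D) :
    False := by
  obtain ⟨N, hN⟩ := meets_finite T P f (index_bounded T P f hadm) D hneg
  obtain ⟨W0, hW0⟩ := T.braun (P N) D hD
  obtain ⟨W1, Ψ, hΨ⟩ := T.fibration W0 hW0
  have key : ∀ i, ∃ W : T.Res (P (N + i)) D, T.Contracts W Ψ := by
    intro i
    induction i with
    | zero => exact ⟨W1, hΨ⟩
    | succ i ih =>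
      obtain ⟨W, hW⟩ := ih
      exact T.common (f (N + i)) D W Ψ (hN (N + i) (Nat.le_add_right N i)) hW
  obtain ⟨e, he⟩ := T.pullback Ψ
  refine no_sequence T (fun i => P (N + i)) (fun i => f (N + i)) (fun i => hadm (N + i)) e
    fun i => ?_
  obtain ⟨W, hW⟩ := key i
  exact he (f (N + i)) (T.takayama (f (N + i)) D W Ψ (hN (N + i) (Nat.le_add_right N i)) hW)

/-! ### All dimensions -/

/-- a relation with an infinite chain for its transitive closure has an infinite chain -/
theorem chain_of_transGen {α : Type} (r : α → α → Prop) (c : ℕ → α)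
    (h : ∀ i, Relation.TransGen r (c i) (c (i + 1))) : ∃ d : ℕ → α, ∀ i, r (d i) (d (i + 1)) := by
  by_contra hcon
  push Not at hcon
  have hwf : WellFounded (fun b a => r a b) := by
    refine ⟨fun a => ?_⟩
    by_contra ha
    rw [not_acc_iff_exists_descending_chain] at ha
    obtain ⟨g, -, hg⟩ := ha
    obtain ⟨i, hi⟩ := hcon g
    exact hi (hg i)
  have hwf' : WellFounded (fun b a => Relation.TransGen r a b) :=
    Subrelation.wf (fun {b a} hab => Relation.transGen_swap.1 hab) hwf.transGen
  obtain ⟨_, ⟨i, rfl⟩, hmin⟩ := hwf'.has_min (Set.range c) (Set.range_nonempty c)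
  exact hmin _ ⟨i + 1, rfl⟩ (h i)

/-- Klt pairs `(X, Δ)` of all dimensions with projective surjective morphisms `π : X → S` with
connected fibres to normal quasi-projective varieties, over the complex numbers (this is no
restriction, since a sequence of flips is defined over a countable field), with a marked ℚ-divisor
`M` and a marked effective ℚ-divisor `E`, whose components have coefficients at least one in
`Δ + E`, for example an integral one, or `E = 0`. -/
structure Tower where
  /-- the bases -/
  Base : Type
  dim : Base → ℕ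
  /-- the klt pairs of dimension `n` over `S`; they need not be Q-factorial -/
  Pair : ℕ → Base → Type
  /-- the flips `φ : X → Z`, `φ⁺ : X⁺ → Z` over `S`: `φ` and `φ⁺` are small and not isomorphisms,
  `-(K + Δ)` is `φ`-ample, `K + Δ⁺` is `φ⁺`-ample; the relative Picard number is arbitrary; the
  marked divisors of `X⁺` are the transforms of `M` and `E` -/
  Flip : ∀ {n : ℕ} {S : Base}, Pair n S → Pair n S → Type
  /-- the dimension of the image `T` of the exceptional locus in `S` -/
  dimT : ∀ {n : ℕ} {S : Base} {P P' : Pair n S}, Flip P P' → ℕ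
  /-- the largest dimension of a fibre of `C → S` -/
  fC : ∀ {n : ℕ} {S : Base} {P P' : Pair n S}, Flip P P' → ℕ
  /-- the largest dimension of a fibre of `C⁺ → S` -/
  fC' : ∀ {n : ℕ} {S : Base} {P P' : Pair n S}, Flip P P' → ℕ
  /-- Kawamata, Matsuda, Matsuki 1987, 5-1-17: if `k` is the dimension of the fibre of `φ` over a
  point `z` of `φ(C)` then the dimension of `C⁺` near the fibre over `z` is at least `n - 1 - k`;
  it is at most `dim T` plus the dimension of the fibres of `C⁺ → S` -/
  kmm : ∀ {n : ℕ} {S : Base} {P P' : Pair n S} (f : Flip P P'),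
    n ≤ fC f + fC' f + dimT f + 1
  /-- `Δ` is rational and `M` is big over `S` -/
  Big : ∀ {n : ℕ} {S : Base}, Pair n S → Prop
  big_flip : ∀ {n : ℕ} {S : Base} {P P' : Pair n S}, Flip P P' → Big P → Big P'
  /-- `M` is ℚ-Cartier and `M ≡ c (K + Δ)` over `Z` with `c ≥ -1`; if the relative Picard number of
  `X → Z` is one this means `(K + Δ + M) · R ≤ 0` for the flipping ray `R` -/
  Adm : ∀ {n : ℕ} {S : Base} {P P' : Pair n S}, Flip P P' → Prop
  /-- `M = -(K + Δ)` -/
  Anti : ∀ {n : ℕ} {S : Base}, Pair n S → Prop
  /-- the transform of `-(K + Δ)` -/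
  anti_flip : ∀ {n : ℕ} {S : Base} {P P' : Pair n S}, Flip P P' → Anti P → Anti P'
  /-- here `c = -1` -/
  anti_adm : ∀ {n : ℕ} {S : Base} {P P' : Pair n S} (f : Flip P P'), Anti P → Adm f
  /-- `Δ` is rational and `K + Δ` is not pseudo-effective over `S` -/
  NotPseff : ∀ {n : ℕ} {S : Base}, Pair n S → Prop
  /-- if the general fibres are curves, divisors of negative degree are anti-big -/
  anti_big : ∀ {n : ℕ} {S : Base}, n = dim S + 1 → ∀ P : Pair n S, Anti P → NotPseff P → Big P
  /-- `E` has Iitaka dimension at least one -/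
  Pen : ∀ {n : ℕ} {S : Base}, Pair n S → Prop
  pen_flip : ∀ {n : ℕ} {S : Base} {P P' : Pair n S}, Flip P P' → Pen P → Pen P'
  /-- There is a representation `π_1(X_reg ∖ Supp (Δ + E)) → GL_N(ℂ)` with infinite image, and for
  every component `F` of `Δ` which is not a component of `E` there is an integer `m ≥ 1` such that
  the coefficient of `F` is at least `1 - 1 / m` and the `m`-th power of a small loop around `F` is
  mapped to the identity. For example a representation of `π_1(X_reg ∖ Supp E)` (`m = 1`). -/
  InfOrb : ∀ {n : ℕ} {S : Base}, Pair n S → Prop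
  /-- `X` and `X⁺` are isomorphic in codimension one -/
  orb_flip : ∀ {n : ℕ} {S : Base} {P P' : Pair n S}, Flip P P' → InfOrb P → InfOrb P'
  /-- `E` is ℚ-Cartier and `E ≡ c (K + Δ)` over `Z` with `c > -1`; if the relative Picard number of
  `X → Z` is one this means `(K + Δ + E) · R < 0` -/
  Neg : ∀ {n : ℕ} {S : Base} {P P' : Pair n S}, Flip P P' → Prop
  /-- `P'` is the restriction of `P` to a very general hyperplane section `S'` of `S` -/
  Res : ∀ {n : ℕ} {S S' : Base}, Pair (n + 1) S → Pair n S' → Prop
  res_big : ∀ {n : ℕ} {S S' : Base} (P : Pair (n + 1) S) (P' : Pair n S'), Res P P' →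
    Big P → Big P'
  /-- Bertini: let `S'` be a very general hyperplane section of `S`, `dim S ≥ 2`. The restrictions
  of the `X_i` to `S'` are klt pairs over `S'` (general members of a base point free linear system),
  the restrictions of the diagrams `X_i → Z_i ← X_(i+1)` are flips if `S'` meets `T_i`, i.e. if
  `dim T_i ≥ 1`, and then the dimension of `T_i` drops by one; otherwise they are isomorphisms, and
  are omitted. There are countably many conditions on `S'`. If `M ≡ c (K + Δ)` over `Z` then the
  same holds for the restrictions, since `K_(X') + Δ'` is the restriction of `K_X + Δ + X'`. -/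
  cut : ∀ {n : ℕ} {S : Base} (P : ℕ → Pair (n + 1) S) (f : ∀ i, Flip (P i) (P (i + 1))),
    2 ≤ dim S → (∀ N, ∃ i ≥ N, 1 ≤ dimT (f i)) →
    ∃ (S' : Base) (P' : ℕ → Pair n S') (g : ∀ j, Flip (P' j) (P' (j + 1))) (ι : ℕ → ℕ),
      dim S' + 1 = dim S ∧ (∀ i, 1 ≤ dimT (f i) ↔ ∃ j, ι j = i) ∧ StrictMono ι ∧
      Res (P 0) (P' 0) ∧ (∀ j, dimT (g j) + 1 = dimT (f (ι j))) ∧ ∀ j, Adm (f (ι j)) → Adm (g j)
  /-- the product of `S` with a smooth affine curve -/
  times : Base → Base
  dim_times : ∀ S, dim (times S) = dim S + 1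
  /-- the product of `X → S` with this curve -/
  prod : ∀ {n : ℕ} {S : Base}, Pair n S → Pair (n + 1) (times S)
  prodFlip : ∀ {n : ℕ} {S : Base} {P P' : Pair n S}, Flip P P' → Flip (prod P) (prod P')
  prod_big : ∀ {n : ℕ} {S : Base} (P : Pair n S), Big P → Big (prod P)
  prod_adm : ∀ {n : ℕ} {S : Base} {P P' : Pair n S} (f : Flip P P'), Adm f → Adm (prodFlip f)
  /-- the Q-factorial klt pairs over `S` isomorphic in codimension one to `P₀` -/
  five : ∀ {S : Base} (P₀ : Pair 5 S), Big P₀ → BigTheory
  /-- `P` is isomorphic to `P₀` in codimension one, with the transforms of `M` and `E`, and `Q` is a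
  small Q-factorialisation of `P` -/
  Model : ∀ {S : Base} {P₀ : Pair 5 S} (b : Big P₀), Pair 5 S → (five P₀ b).Pair → Prop
  /-- Birkar, Cascini, Hacon, McKernan 2010 -/
  model_exists : ∀ {S : Base} {P₀ : Pair 5 S} (b : Big P₀), ∃ Q, Model b P₀ Q
  /-- the divisor `E` -/
  eDiv : ∀ {S : Base} {P₀ : Pair 5 S} (b : Big P₀), (five P₀ b).Div
  eDiv_mobile : ∀ {S : Base} {P₀ : Pair 5 S} (b : Big P₀), Pen P₀ → (five P₀ b).Mobile (eDiv b)
  /-- a small Q-factorialisation is an isomorphism over `X_reg` -/
  eDiv_orb : ∀ {S : Base} {P₀ : Pair 5 S} (b : Big P₀), InfOrb P₀ → (five P₀ b).InfOrb (eDiv b)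
  /-- the minimal model program over `Z` with scaling, which starts with a Q-factorialisation of
  `X`, consists of flips, at least one, and ends with a Q-factorialisation of `X⁺` (Birkar, Cascini,
  Hacon, McKernan 2010); if `M ≡ c (K + Δ)` or `E ≡ c (K + Δ)` over `Z` then this holds in all its
  steps -/
  model_flip : ∀ {S : Base} {P₀ : Pair 5 S} (b : Big P₀) {P P' : Pair 5 S} (f : Flip P P') (Q),
    Model b P Q → ∃ Q', Model b P' Q' ∧ Relation.TransGen (fun A B => ∃ g : (five P₀ b).Flip A B,
      (Adm f → (five P₀ b).Adm g) ∧ (Neg f → (five P₀ b).Neg g (eDiv b))) Q Q'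
  /-- a pencil which consists of pull-backs of divisors of `S` -/
  basePencil : ∀ {S : Base} {P₀ : Pair 5 S} (b : Big P₀), 1 ≤ dim S → ∃ e : (five P₀ b).Pencil,
    ∀ {A B} (g : (five P₀ b).Flip A B), (five P₀ b).Neg g ((five P₀ b).infty e)
  /-- flips over a point of projective varieties with morphisms to `S`, which agree on the common
  open set of `X` and `X⁺`; the marked divisors as for `Flip` -/
  AbsFlip : ∀ {n : ℕ} {S : Base}, Pair n S → Pair n S → Type
  /-- `X` is projective and `π : X → S` contracts all rational curves of `X`, for example because `S`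
  contains no rational curve -/
  Contracts : ∀ {n : ℕ} {S : Base}, Pair n S → Prop
  /-- the cone of curves of `X` over `Z` is spanned by rational curves (Kawamata 1991) -/
  cone : ∀ {n : ℕ} {S : Base} {P P' : Pair n S}, Contracts P → AbsFlip P P' → Flip P P'

/-- there is no infinite sequence in dimension five -/
theorem no_five (U : Tower) {S : U.Base} (P : ℕ → U.Pair 5 S)
    (f : ∀ i, U.Flip (P i) (P (i + 1))) (b : U.Big (P 0)) (hadm : ∀ i, U.Adm (f i))
    (hE : 1 ≤ U.dim S ∨ ((U.Pen (P 0) ∨ U.InfOrb (P 0)) ∧ ∀ i, U.Neg (f i))) : False := by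
  classical
  let T := U.five (P 0) b
  obtain ⟨Q0, hQ0⟩ := U.model_exists b
  let r : T.Pair → T.Pair → Prop := fun A B => ∃ g : T.Flip A B, T.Adm g ∧
    ((∀ i, U.Neg (f i)) → T.Neg g (U.eDiv b))
  have step : ∀ i, ∀ Q, U.Model b (P i) Q → ∃ Q', U.Model b (P (i + 1)) Q' ∧
      Relation.TransGen r Q Q' := by
    intro i Q hQ
    obtain ⟨Q', h1, h2⟩ := U.model_flip b (f i) Q hQ
    exact ⟨Q', h1, h2.lift id fun A B ⟨g, hg1, hg2⟩ => ⟨g, hg1 (hadm i), fun h => hg2 (h i)⟩⟩
  choose g hg1 hg2 using step
  let c : ∀ i, {Q // U.Model b (P i) Q} := fun i =>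
    Nat.rec ⟨Q0, hQ0⟩ (fun i Q => ⟨g i Q.1 Q.2, hg1 i Q.1 Q.2⟩) i
  have hc : ∀ i, Relation.TransGen r (c i).1 (c (i + 1)).1 := fun i => hg2 i (c i).1 (c i).2
  obtain ⟨d, hr⟩ := chain_of_transGen r (fun i => (c i).1) hc
  choose fd hfd using hr
  rcases hE with h | ⟨h, hneg⟩
  · obtain ⟨e, he⟩ := U.basePencil b h
    exact no_sequence T d fd (fun i => (hfd i).1) e fun i => he (fd i)
  · have hneg' : ∀ i, T.Neg (fd i) (U.eDiv b) := fun i => (hfd i).2 hneg
    rcases h with h | h
    · exact no_mobile T d fd (fun i => (hfd i).1) (U.eDiv b) (U.eDiv_mobile b h) hneg'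
    · exact no_open T d fd (fun i => (hfd i).1) (U.eDiv b) (U.eDiv_orb b h) hneg'

/-- only finitely many flips have an image of dimension at least `n - 5` in `S` -/
theorem bound (U : Tower) (m : ℕ) : ∀ {S : U.Base} (P : ℕ → U.Pair (m + 5) S)
    (f : ∀ i, U.Flip (P i) (P (i + 1))), m + 1 ≤ U.dim S → U.Big (P 0) → (∀ i, U.Adm (f i)) →
    ∃ N, ∀ i ≥ N, U.dimT (f i) < m := by
  induction m with
  | zero =>
    intro S P f h b hadm
    exact (no_five U P f b hadm (Or.inl h)).elim
  | succ m ih =>
    intro S P f h b hadm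
    by_contra hcon
    push Not at hcon
    have hinf : ∀ N, ∃ i ≥ N, 1 ≤ U.dimT (f i) := fun N => by
      obtain ⟨i, hi, hm⟩ := hcon N
      exact ⟨i, hi, by omega⟩
    obtain ⟨S', P', g, ι, hS', hι, hmono, hres, hdim, hadm'⟩ :=
      U.cut (n := m + 5) P f (by omega) hinf
    obtain ⟨N, hN⟩ := ih (S := S') P' g (by omega) (U.res_big _ _ hres b)
      fun j => hadm' j (hadm _)
    obtain ⟨i, hi, hm⟩ := hcon (ι N)
    obtain ⟨j, rfl⟩ := (hι i).1 (by omega)
    have hj : N ≤ j := hmono.le_iff_le.1 hi
    have h1 := hN j hj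
    have h2 := hdim j
    omega

/-- one step: a flip over `S` or, if `X → S` contracts all rational curves, a flip over a point -/
inductive Step (U : Tower) {n : ℕ} {S : U.Base} (P P' : U.Pair n S) : Type
  | over (f : U.Flip P P') : Step U P P'
  | point (h : U.Contracts P) (f : U.AbsFlip P P') : Step U P P'

/-- it is a flip over `S` in both cases -/
def Step.flip {U : Tower} {n : ℕ} {S : U.Base} {P P' : U.Pair n S} : Step U P P' → U.Flip P P'
  | .over f => f
  | .point h f => U.cone h f

/-- the hypothesis of the main theorem: `Δ` is rational, `M` is big over `S`, `M = -(K + Δ)` or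
`(K + Δ_i + M_i) · R_i ≤ 0` for all but finitely many `i`, and either `dim S ≥ n - 4`, or `n = 5`,
`(K + Δ_i + E_i) · R_i < 0` for all but finitely many `i`, and `E` has Iitaka dimension at least one
or the orbifold fundamental group of `(X_0 ∖ E_0, Δ_0)` has a complex linear representation with
infinite image;

or `Δ` is rational, `M = -(K + Δ)`, `K + Δ` is not pseudo-effective over `S` and `dim S = n - 1` -/
def Hyp (U : Tower) {n : ℕ} {S : U.Base} (P : ℕ → U.Pair n S)
    (f : ∀ i, U.Flip (P i) (P (i + 1))) : Prop :=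
  (U.Big (P 0) ∧ (U.Anti (P 0) ∨ {i | ¬ U.Adm (f i)}.Finite) ∧
    (n ≤ U.dim S + 4 ∨ (n = 5 ∧ (U.Pen (P 0) ∨ U.InfOrb (P 0)) ∧ {i | ¬ U.Neg (f i)}.Finite))) ∨
  (n = U.dim S + 1 ∧ U.Anti (P 0) ∧ U.NotPseff (P 0))

/-- **Main theorem**: let `n ≥ 4`. In an infinite sequence of flips over `S` of klt pairs of
dimension `n` which satisfies `Hyp` only finitely many flips have an image `T` of dimension at least
`n - 5` in `S`. So there is no such sequence if `n ≤ 5`, and none, for every `n`, if the fibres over
`S` of the exceptional loci `C` and `C⁺` of each flip have dimensions with sum at most four. -/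
theorem result (U : Tower) {n : ℕ} (hn : 4 ≤ n) {S : U.Base} (P : ℕ → U.Pair n S)
    (f : ∀ i, Step U (P i) (P (i + 1))) (h : Hyp U P fun i => (f i).flip) :
    {i | n ≤ U.dimT (f i).flip + 5}.Finite ∧
    ¬ (n ≤ 5 ∨ ∀ i, U.fC (f i).flip + U.fC' (f i).flip ≤ 4) := by
  have hanti : U.Anti (P 0) → ∀ i, U.Adm (f i).flip := by
    intro h1 i
    have h2 : ∀ i, U.Anti (P i) := by
      intro i
      induction i with
      | zero => exact h1
      | succ i ih => exact U.anti_flip (f i).flip ih
    exact U.anti_adm _ (h2 i)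
  have hempty : U.Anti (P 0) → {i | ¬ U.Adm (f i).flip}.Finite := fun h1 =>
    Set.finite_empty.subset fun i hi => (hi (hanti h1 i)).elim
  have h' : U.Big (P 0) ∧ {i | ¬ U.Adm (f i).flip}.Finite ∧ (n ≤ U.dim S + 4 ∨
      (n = 5 ∧ (U.Pen (P 0) ∨ U.InfOrb (P 0)) ∧ {i | ¬ U.Neg (f i).flip}.Finite)) := by
    rcases h with ⟨h1, h2, h3⟩ | ⟨h1, h2, h3⟩
    · exact ⟨h1, h2.elim hempty id, h3⟩
    · exact ⟨U.anti_big h1 _ h2 h3, hempty h2, Or.inl (by omega)⟩
  have h1 : {i | n ≤ U.dimT (f i).flip + 5}.Finite := by
    obtain ⟨b, hadm, hE⟩ := h'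
    have hb : ∀ i, U.Big (P i) := by
      intro i
      induction i with
      | zero => exact b
      | succ i ih => exact U.big_flip (f i).flip ih
    obtain ⟨K, hK⟩ := hadm.bddAbove
    have hK' : ∀ i, U.Adm (f (K + 1 + i)).flip := by
      intro i
      by_contra hcon
      have := hK hcon
      omega
    rcases Nat.lt_or_ge n 5 with h5 | h5
    · -- `n = 4`: multiply with a curve
      obtain rfl : n = 4 := by omega
      exact (no_five U (fun i => U.prod (P (K + 1 + i))) (fun i => U.prodFlip (f (K + 1 + i)).flip)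
        (U.prod_big _ (hb _)) (fun i => U.prod_adm _ (hK' i))
        (Or.inl (by rw [U.dim_times]; omega))).elim
    · rcases hE with hE | ⟨rfl, hP, hE⟩
      · obtain ⟨m, rfl⟩ := Nat.exists_eq_add_of_le' h5
        obtain ⟨N, hN⟩ := bound U m (fun i => P (K + 1 + i)) (fun i => (f (K + 1 + i)).flip)
          (by omega) (hb _) hK'
        refine (Set.finite_lt_nat (K + 1 + N)).subset fun i hi => ?_
        by_contra hcon
        obtain ⟨j, rfl⟩ := Nat.exists_eq_add_of_le (le_trans (Nat.le_add_right (K + 1) N)
          (not_lt.1 hcon))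
        have hcon' : ¬ K + 1 + j < K + 1 + N := hcon
        have h2 := hN j (by omega)
        have h3 : m + 5 ≤ U.dimT (f (K + 1 + j)).flip + 5 := hi
        omega
      · have hpen : ∀ i, U.Pen (P i) ∨ U.InfOrb (P i) := by
          intro i
          induction i with
          | zero => exact hP
          | succ i ih => exact ih.imp (U.pen_flip (f i).flip) (U.orb_flip (f i).flip)
        obtain ⟨L, hL⟩ := hE.bddAbove
        have hL' : ∀ i, U.Neg (f (K + 1 + (L + 1) + i)).flip := by
          intro i
          by_contra hcon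
          have := hL hcon
          omega
        have hK'' : ∀ i, U.Adm (f (K + 1 + (L + 1) + i)).flip := by
          intro i
          by_contra hcon
          have := hK hcon
          omega
        exact (no_five U (fun i => P (K + 1 + (L + 1) + i))
          (fun i => (f (K + 1 + (L + 1) + i)).flip) (hb _) hK'' (Or.inr ⟨hpen _, hL'⟩)).elim
  refine ⟨h1, fun h0 => Set.infinite_univ (h1.subset fun i _ => ?_)⟩
  change n ≤ U.dimT (f i).flip + 5
  rcases h0 with h0 | h0
  · omega
  · have h3 := U.kmm (f i).flip
    have h4 := h0 i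
    omega

end Pool.Agent.Results.MP_89a3f8_ag.DirectedByBig
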