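import Mathlib

/-!
# MP_89a3f8_ag: flips of klt fourfolds

Theorem (`result`). Let `X_0 ⇢ X_1 ⇢ ⋯` be an infinite sequence of flips over `S` of klt pairs
`(X_i, Δ_i)` of dimension `n ≥ 4`. Nothing is assumed about `K + Δ`.

(1) If `n = 4` then `S` is a point. Let `D` be an effective divisor (for example `D = 0`), whose
components have coefficients at least one in `Δ + D` (for example `D` integral, or `Δ + D = ⌈Δ⌉`),
such that `(K + Δ_i + D_i) · R_i < 0` for all large `i` (for example `D_i · R_i ≤ 0`). Then `D` has
Iitaka dimension zero, and every complex linear representation of the orbifold fundamental group of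
the quasi-projective pair `(X_i ∖ D_i, Δ_i)` has finite image. For `D = 0`: `π_1(X_reg)` has only
finite linear representations.

(2) If `n > 4` and `dim S ≥ n - 3` then only finitely many of the images `T_i` of the flipping loci
in `S` have dimension `≥ n - 4`, and for some flip the fibres over `S` of the two exceptional loci
have dimensions with sum at least four.

The published facts used are recorded, one by one, in three structures:

* `Germ`: a flip of fourfolds near the fibre over a point of a curve `B`, in a family over `B` which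
  has a simultaneous log resolution;
* `FlipTheory`: Q-factorial klt fourfolds over a base, their flips, effective divisors and pencils;
* `Tower`: klt pairs of all dimensions over all bases, their restrictions to the inverse images of
  very general hyperplane sections of the base, Q-factorialisations in dimension four.

Everything else is proved here:

* the rigidity lemma (`Germ.elim`): there is no such germ;
* if `D` is effective and `(K + Δ_i + D_i) · R_i < 0` for all large `i` then only finitely many
  flipping loci meet `D_i` (`finite_meet`; the ascending chain condition for local log canonical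
  thresholds);
* so the flips are finally disjoint from `D`, from the base locus of a pencil in a multiple of `D`,
  lie in members of the pencil, and by the rigidity lemma in finitely many of them;
* if `π_1(X ∖ D)` has an infinite linear image: (a cover of) the complement of `D` in the first model
  after which the flipping loci are disjoint from `D` has a morphism to a quasi-projective variety of
  positive dimension which contracts all subvarieties with finite fundamental group; it is a morphism
  on all later models, and contracts all flipping rays, as klt singularities have finite local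
  fundamental groups; so the members of a pencil are zero on these rays (`no_open`);
* the reduction to pencils of hyperplane sections if `dim S ≥ 1`, and of (2) to this by cutting the
  base.

Notation: `φ : X → Z`, `φ⁺ : X⁺ → Z` are the two contractions of a flip, `C` and `C⁺` their
exceptional loci; an index `s` denotes the fibre over `s`.
-/

set_option autoImplicit false

namespace Pool.Agent.Results.MP_89a3f8_ag.FlipsAndPencils

/-- Let `X → B` be a morphism from a klt fourfold `(X, Δ)` to a smooth curve `B`, `s` a point of `B`,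
`φ : X → Z`, `φ⁺ : X⁺ → Z` a flip over `B` whose exceptional loci `C`, `C⁺` lie in the fibres `X_s`,
`X_s⁺`. `Y → X` is a log resolution such that `Y` and all strata of its exceptional and boundary
divisors are smooth over `B`. So `(X, X_s + Δ)` is plt, hence also `(X⁺, X_s⁺ + Δ⁺)`, and `X_s`,
`X_s⁺` are normal. `z` is the image of a two-dimensional component of `C`, if this is a point. The
morphism `X → B` need not be proper. -/
structure Germ where
  /-- the dimension of `C` -/
  a : ℕ
  /-- the dimension of `C⁺` -/
  e : ℕ
  /-- the dimension of `φ(C) = φ⁺(C⁺)` -/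
  m : ℕ
  /-- `φ` is small -/
  exc_le : a ≤ 2
  /-- `φ⁺` is small -/
  plus_le : e ≤ 2
  /-- Kawamata, Matsuda, Matsuki 1987, 5-1-17: `dim C + dim C⁺ ≥ dim X - 1` -/
  kmm : 3 ≤ a + e
  /-- the fibres of `C⁺ → φ(C)` have positive dimension (Zariski's main theorem) -/
  image_lt : m + 1 ≤ e
  /-- the divisors over `X_s` with centre in `C`; these are those over `X_s⁺` with centre in `C⁺`,
  as `φ(C) = φ⁺(C⁺)` -/
  Val : Type
  /-- the log discrepancy with respect to `X_s` -/
  ld : Val → ℝ
  /-- the log discrepancy with respect to `X_s⁺` -/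
  ldPlus : Val → ℝ
  /-- the minimum is attained, since `(X_s, Δ_s)` is klt -/
  ld_min : ∀ _ : Val, ∃ v, ∀ w, ld v ≤ ld w
  /-- the negativity lemma -/
  ld_lt : ∀ v, ld v < ldPlus v
  /-- if `C⁺` contains a prime divisor of the threefold `X_s⁺`, its log discrepancy is at most one -/
  divisor : e = 2 → ∃ v, ldPlus v ≤ 1
  /-- the divisors over `X` which dominate `B` and whose restriction to the strict transform of `X_s`
  in some log resolution contains an element of `Val` -/
  Hor : Type
  /-- their log discrepancy with respect to `X`, and to `X⁺` (these agree outside `X_s`) -/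
  ldHor : Hor → ℝ
  /-- a divisor over `X_s` with log discrepancy less than one is toroidal with respect to the log
  resolution `Y_s → X_s` (all others have log discrepancy at least one), so it is the restriction of
  a divisor over `X`, with the same log discrepancy -/
  toroidal : ∀ v, ld v < 1 → ∃ F, ldHor F = ld v
  /-- Let `N` be the normalisation of the image of `F` in `Z` in the function field of `F`. The strata
  of `Y` are smooth over `B`, so the fibre over `s` of a toroidal model of `F` is normal, and its
  components have disjoint images in `N` (Stein factorisation); these are the components of `N_s`. One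
  of the components of the fibre is in `Val`; let `N_0` be its image, which lies over `φ(C)` (so `F`
  is exceptional over `X`: otherwise `dim N_0 = 2`). Let `V → X⁺` extract exactly `F` (Birkar, Cascini,
  Hacon, McKernan 2010, as the log discrepancy is less than one), let `w` be a component of `F ∩ V_s`
  which dominates `N_0`, and `k` its multiplicity. The centre of `w` is in `C⁺`. The fibre `V_s` is
  Cartier and normal, since `(X⁺, X_s⁺ + Δ⁺)` is plt, so `V` is regular at `w`, and by adjunction the
  coefficient of `w` in the different is at least `k (1 - ldHor F)`. -/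
  adjunction : ∀ F, ldHor F < 1 → ∃ (w : Val) (k : ℕ), 1 ≤ k ∧
    ldPlus w ≤ 1 - k * (1 - ldHor F)
  /-- the two-dimensional components of the fibre of `Y_s → Z_s` over `z` -/
  SurfS : Type
  /-- for `u` near `s`, `u ≠ s`, the surfaces in `Y_u` over a small ball around `z` which are
  contracted to points of `X_u = Z_u` -/
  SurfU : Type
  finS : Fintype SurfS
  finU : Fintype SurfU
  /-- the fourth Betti number of `Y_s` over a small ball around `z` -/
  bettiS : ℕ
  /-- the fourth Betti number of `Y_u` over the same ball -/
  bettiU : ℕ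
  /-- Ehresmann 1951: `Y → B` is locally trivial over the ball -/
  ehresmann : bettiS = bettiU
  /-- `Y_s` over the ball retracts onto the fibre over `z`, which has dimension at most two -/
  retract : bettiS = Fintype.card SurfS
  /-- the dimensions of the groups `E_2^(p,q) = H^p(Z_u, R^q)` of the Leray spectral sequence of
  `Y_u → Z_u` over the ball -/
  E : ℕ → ℕ → ℕ
  /-- the dimension of the support of the sheaf `R^q` -/
  suppDim : ℕ → ℕ
  /-- Leray 1946 -/
  leray : bettiU ≤ ∑ p ∈ Finset.range 5, E p (4 - p)
  /-- the vanishing theorem on Stein spaces (Andreotti, Frankel 1959; Artin 1973) -/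
  artin : ∀ p q, suppDim q < p → E p q = 0
  supp_zero : suppDim 0 ≤ 3
  /-- `R^q` lives where the fibres of the birational map `Y_u → Z_u` have dimension `≥ q / 2` -/
  supp_pos : ∀ q, 1 ≤ q → suppDim q ≤ 1
  supp_three : ∀ q, 3 ≤ q → suppDim q = 0
  /-- the stalks of `R^4` are spanned by the surfaces in the fibres -/
  stalk_four : E 0 4 = Fintype.card SurfU
  /-- the dimension of the image in `X_s` -/
  dimIm : SurfS → ℕ
  /-- a contracted surface of `Y_u` is the fibre over `u` of an exceptional divisor which is smooth
  over `B`; its specialisation is a component of the fibre over `z` and is contracted to a point of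
  `X_s` -/
  specialise : ∃ σ : SurfU → SurfS, Function.Injective σ ∧ ∀ F, dimIm (σ F) = 0
  /-- the strict transform of a surface of `C` contracted to `z` -/
  strict : a = 2 → m = 0 → ∃ F, dimIm F = 2

/-- `C⁺` contains no divisor of `X_s⁺`: a divisor of minimal log discrepancy over `C` would extend to
a divisor over `X`, and its restriction to `X_s⁺` has smaller log discrepancy. -/
theorem Germ.plus_lt (σ : Germ) : σ.e ≤ 1 := by
  by_contra hcon
  have he : σ.e = 2 := by
    have := σ.plus_le
    omega
  obtain ⟨v0, hv0⟩ := σ.divisor he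
  obtain ⟨v, hv⟩ := σ.ld_min v0
  have h1 : σ.ld v < 1 := ((hv v0).trans_lt (σ.ld_lt v0)).trans_le hv0
  obtain ⟨F, hF⟩ := σ.toroidal v h1
  obtain ⟨w, k, hk, hw⟩ := σ.adjunction F (hF ▸ h1)
  rw [hF] at hw
  have h2 : σ.ld v < σ.ldPlus w := (hv w).trans_lt (σ.ld_lt w)
  have hk' : (1 : ℝ) ≤ k := by exact_mod_cast hk
  nlinarith

/-- **Rigidity lemma**: there is no such germ. -/
theorem Germ.elim (σ : Germ) : False := by
  have h0 := σ.plus_lt
  have h1 := σ.exc_le
  have h2 := σ.kmm
  have h6 := σ.image_lt
  have ha : σ.a = 2 := by omega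
  have hm : σ.m = 0 := by omega
  obtain ⟨τ, hτ, h0⟩ := σ.specialise
  obtain ⟨F, hF⟩ := σ.strict ha hm
  let := σ.finS
  let := σ.finU
  have hlt : Fintype.card σ.SurfU < Fintype.card σ.SurfS := by
    refine Fintype.card_lt_of_injective_of_notMem τ hτ (b := F) ?_
    rintro ⟨G, hG⟩
    have := h0 G
    rw [hG, hF] at this
    omega
  have hU : σ.bettiU ≤ Fintype.card σ.SurfU := by
    have hle := σ.leray
    have e1 : σ.E 1 3 = 0 := σ.artin 1 3 (by have := σ.supp_three 3 le_rfl; omega)
    have e2 : σ.E 2 2 = 0 := σ.artin 2 2 (by have := σ.supp_pos 2 (by omega); omega)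
    have e3 : σ.E 3 1 = 0 := σ.artin 3 1 (by have := σ.supp_pos 1 le_rfl; omega)
    have e4 : σ.E 4 0 = 0 := σ.artin 4 0 (by have := σ.supp_zero; omega)
    have e0 := σ.stalk_four
    simp only [Finset.sum_range_succ, Finset.sum_range_zero] at hle
    norm_num at hle
    omega
  have h7 := σ.ehresmann
  have h8 := σ.retract
  omega

/-- the ascending chain condition -/
def ACC (A : Set ℝ) : Prop := ¬ ∃ t : ℕ → ℝ, StrictMono t ∧ ∀ n, t n ∈ A

/-- Q-factorial klt pairs `(X, Δ)` of dimension four, projective over a normal quasi-projective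
variety `S`, which may be a point, over the complex numbers, and their flips. -/
structure FlipTheory where
  /-- the pairs -/
  Pair : Type
  /-- the points of `X` -/
  Pt : Pair → Type
  /-- the flips over `S` -/
  Flip : Pair → Pair → Type
  /-- the exceptional locus `C` of `φ` -/
  exc : ∀ {P P' : Pair}, Flip P P' → Set (Pt P)
  exc_nonempty : ∀ {P P' : Pair} (f : Flip P P'), (exc f).Nonempty
  /-- the effective divisors `D` all of whose components have coefficients at least one in `Δ + D`,
  for example the integral effective divisors, together with their transforms on the other models.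
  (Formally: the pairs are marked by their function fields, and `D` is a family of such divisors on
  all pairs over `S`, compatible with isomorphisms in codimension one, with coefficients in a set
  with the descending chain condition.) -/
  Div : Type
  /-- the divisor zero -/
  zero : Div
  /-- `(K + Δ + D) · R < 0` for the flipping ray `R` -/
  Neg : ∀ {P P' : Pair}, Flip P P' → Div → Prop
  neg_zero : ∀ {P P' : Pair} (f : Flip P P'), Neg f zero
  /-- the support of `D` on `X` -/
  supp : ∀ P, Div → Set (Pt P)
  /-- the log canonical threshold at `x` of `D` with respect to `(X, Δ)` -/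
  lct : ∀ P, Div → Pt P → WithTop ℝ
  /-- `(X, Δ)` is klt -/
  lct_pos : ∀ P D x, 0 < lct P D x
  /-- the coefficient of a component of `D` in `Δ + D` is at least one -/
  lct_le_one : ∀ P D, ∀ x ∈ supp P D, lct P D x ≤ 1
  /-- the local threshold is a constructible function -/
  lct_finite : ∀ P D, (Set.range (lct P D)).Finite
  /-- `X` and `X⁺` are isomorphic outside `C` and `C⁺`; if `(K + Δ + D) · R < 0` then
  `(K + Δ + t D) · R < 0` for `0 ≤ t ≤ 1`, so by the negativity lemma the local threshold at a point
  of `C⁺` is at least the one at some point of `C` -/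
  lct_flip : ∀ {P P' : Pair} (f : Flip P P') (D : Div) (_ : Neg f D) (y : Pt P'),
    (∃ x, lct P D x = lct P' D y) ∨ ∃ x ∈ exc f, lct P D x ≤ lct P' D y
  /-- the coefficients of `Δ` -/
  coeff : Pair → Set ℝ
  coeff_finite : ∀ P, (coeff P).Finite
  coeff_flip : ∀ {P P' : Pair}, Flip P P' → coeff P' = coeff P
  /-- the ascending chain condition for log canonical thresholds (Hacon, McKernan, Xu 2014) -/
  acc : ∀ I : Set ℝ, I.Finite → ∀ D : Div, ACC {t : ℝ | ∃ P, coeff P = I ∧ ∃ x, lct P D x = t}
  /-- special termination in dimension four (Shokurov 2003; Fujino 2007; for log canonical pairs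
  Birkar 2007), which uses termination in dimension three: if the flips are also flips for
  `K + Δ_i + t D`, and `(X_i, Δ_i + t D)` is log canonical near the exceptional loci, then these are
  finally disjoint from its non-klt locus. The statement is local on the `X_i`: the pairs need not be
  log canonical elsewhere (restrict to the open sets where they are, or use a Q-factorial dlt
  modification). -/
  special : ∀ (P : ℕ → Pair) (f : ∀ i, Flip (P i) (P (i + 1))) (D : Div) (t : ℝ), 0 ≤ t → t ≤ 1 →
    (∀ i, Neg (f i) D) → (∀ i, ∀ x ∈ exc (f i), (t : WithTop ℝ) ≤ lct (P i) D x) →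
    ∃ N, ∀ i ≥ N, ∀ x ∈ exc (f i), (t : WithTop ℝ) < lct (P i) D x
  /-- the pencils, given by two linearly independent sections `s`, `s'` of a divisor `E` -/
  Pencil : Type
  /-- the parameters in the projective line; `none` is the point at infinity -/
  mem : Pencil → Option ℂ → Div
  /-- the members are linearly equivalent -/
  neg_mem : ∀ {P P' : Pair} (f : Flip P P') (L : Pencil) (τ τ' : Option ℂ),
    Neg f (mem L τ) → Neg f (mem L τ')
  /-- the base locus: the points which lie in all members -/
  base : Pencil → ∀ P, Set (Pt P)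
  /-- the value of `s' / s` at a point outside the base locus -/
  val : Pencil → ∀ P, Pt P → Option ℂ
  mem_supp : ∀ (L : Pencil) P (τ : Option ℂ) (x : Pt P),
    x ∈ supp P (mem L τ) ↔ x ∈ base L P ∨ val L P x = τ
  /-- the image of `C` under the morphism `s' / s` is constructible (Chevalley) -/
  chevalley : ∀ {P P' : Pair} (f : Flip P P') (L : Pencil), Disjoint (exc f) (base L P) →
    (val L P '' exc f).Finite ∨ (val L P '' exc f)ᶜ.Finite
  /-- the parameters `τ` such that `s' / s : X → ℙ¹`, outside the base locus, has a simultaneous log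
  resolution over a neighbourhood of `τ`, as in `Germ` -/
  good : Pencil → Pair → Set (Option ℂ)
  /-- Hironaka 1964 and generic smoothness -/
  good_cofinite : ∀ L P, (good L P)ᶜ.Finite
  /-- `X` and `X⁺` are isomorphic outside `C` and `C⁺` -/
  good_flip : ∀ {P P' : Pair} (f : Flip P P') (L : Pencil), Disjoint (exc f) (base L P) →
    (val L P '' exc f).Finite → Disjoint (val L P '' exc f) (good L P) → good L P ⊆ good L P'
  /-- the flip near the fibre of `s' / s` over a good parameter `τ` -/
  germ : ∀ {P P' : Pair} (f : Flip P P') (L : Pencil), Disjoint (exc f) (base L P) →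
    (val L P '' exc f).Finite → (val L P '' exc f ∩ good L P).Nonempty → Nonempty Germ
  /-- `D` has Iitaka dimension at least one: some integral divisor with the same support as `D` has
  two linearly independent sections -/
  Mobile : Div → Prop
  /-- these sections; if the support of `D` is disjoint from `C` then the components of `D` have
  intersection number zero with `R` -/
  multiple : ∀ D, Mobile D → ∃ L : Pencil, ∀ {P P' : Pair} (f : Flip P P') (τ : Option ℂ),
    Disjoint (exc f) (supp P D) → Neg f (mem L τ)
  /-- There is a representation `π_1(X_reg ∖ Supp (Δ + D)) → GL_N(ℂ)` with infinite image, and for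
  every component `E` of `Δ` which is not a component of `D` there is an integer `m ≥ 1` such that
  the coefficient of `E` is at least `1 - 1 / m` and the `m`-th power of a small loop around `E` is
  mapped to the identity. For example a representation of `π_1(X_reg ∖ Supp D)` (`m = 1`). -/
  InfOrb : Pair → Div → Prop
  /-- `X` and `X⁺` are isomorphic in codimension one -/
  orb_flip : ∀ {P P' : Pair}, Flip P P' → ∀ D, InfOrb P D → InfOrb P' D
  /-- The smooth quasi-projective varieties `W` with a proper birational morphism `W → Y`, where `Y` is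
  normal, `Y → X ∖ Supp D` is a finite Galois cover, étale in codimension one outside `Supp Δ`, and
  `K_Y + Δ_Y` is the pull-back of `K + Δ`, with `Δ_Y` effective. So `(Y, Δ_Y)` is klt. -/
  Res : Pair → Div → Type
  /-- `π_1(W)` has a complex linear representation with infinite image -/
  InfPi : ∀ {P : Pair} {D : Div}, Res P D → Prop
  /-- Selberg 1960: a normal torsion free subgroup of finite index of the image defines a finite
  Galois cover `Y → X ∖ Supp D`; its ramification index over a component of `Δ` is the order of the
  image of the loop, so `Δ_Y` is effective. By Braun 2021, Theorem 1, the local fundamental groups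
  of `Y_reg` are finite, so they have trivial images, and the local system extends to `Y` and its
  resolutions. -/
  braun : ∀ (P : Pair) (D : Div), InfOrb P D → ∃ W : Res P D, InfPi W
  /-- the dominant rational maps `Ψ` to projective varieties of positive dimension -/
  Target : Type
  /-- The composition of `W → X` and `Ψ` is a morphism, and contracts all closed irreducible
  subvarieties of `W` such that the fundamental group of the normalisation has finite image in
  `π_1(W)`. -/
  Contracts : ∀ {P : Pair} {D : Div}, Res P D → Target → Prop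
  /-- If `π_1(W)` has a linear representation with infinite image then a finite étale cover of `W` has
  a nonconstant morphism of this kind to a quasi-projective variety: the quasi-Albanese morphism
  (Iitaka 1976) if some subgroup of finite index has infinite abelianisation; otherwise there is a
  semisimple representation with infinite image which is unbounded over some `p`-adic field, or is
  the monodromy of a polarised `ℤ`-variation of Hodge structure (Simpson 1992; Mochizuki 2006), and
  the morphism is the reduction map of Cadorel, Deng, Yamanoi 2022, or the period map, with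
  quasi-projective image by Bakker, Brunebarbe, Tsimerman 2023, Theorem 1.1. Covers of `W` come from
  covers of `Y` (Takayama 2003, Theorem 1.1); pass to a Galois cover of `X ∖ Supp D`, to the product
  of the conjugates, and to the quotient of its image. -/
  fibration : ∀ {P : Pair} {D : Div} (W : Res P D), InfPi W → ∃ (W' : Res P D) (Ψ : Target),
    Contracts W' Ψ
  /-- The covers of `X ∖ Supp D` and `X⁺ ∖ Supp D` agree, `W'` has proper birational morphisms to `W`
  and to the cover of `X⁺ ∖ Supp D`, and its fundamental group is that of `W`. -/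
  common : ∀ {P P' : Pair} (f : Flip P P') (D : Div) (W : Res P D) (Ψ : Target),
    Disjoint (exc f) (supp P D) → Contracts W Ψ → ∃ W' : Res P' D, Contracts W' Ψ
  /-- the rational map `Ψ` is defined near `C` and contracts the curves of the flipping ray -/
  Over : ∀ {P P' : Pair}, Target → Flip P P' → Prop
  /-- The fibres of `W → Y`, and of `W → Z'`, where `Y → Z' → Z` is the Stein factorisation near
  `φ(C)`, have simply connected neighbourhoods (Kollár 1993; Takayama 2003, Theorem 1.1), since `Y`
  and `Z'` are klt with suitable boundaries. So `Ψ` is a morphism on `X ∖ Supp D` and contracts the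
  curves of the flipping ray. -/
  takayama : ∀ {P P' : Pair} (f : Flip P P') (D : Div) (W : Res P D) (Ψ : Target),
    Disjoint (exc f) (supp P D) → Contracts W Ψ → Over Ψ f
  /-- the pencil of the pull-backs of the members of a pencil of hyperplane sections of the target:
  near `C` these are pull-backs of Cartier divisors, which are zero on the flipping ray -/
  pullback : ∀ Ψ : Target, ∃ L : Pencil, ∀ {P P' : Pair} (f : Flip P P'), Over Ψ f →
    Neg f (mem L none)

variable (T : FlipTheory)

/-! ### Flipping loci which meet an effective divisor -/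

/-- one step of the argument with thresholds -/
theorem raise (P : ℕ → T.Pair) (f : ∀ i, T.Flip (P i) (P (i + 1))) (D : T.Div)
    (hD : ∀ i, T.Neg (f i) D)
    (hinf : ∀ N, ∃ i ≥ N, (T.exc (f i) ∩ T.supp (P i) D).Nonempty) (t : ℝ) (ht : 0 ≤ t)
    (ht1 : t ≤ 1) (N : ℕ) (h : ∀ i ≥ N, ∀ x ∈ T.exc (f i), (t : WithTop ℝ) ≤ T.lct (P i) D x) :
    ∃ t' : ℝ, t < t' ∧ t' ≤ 1 ∧ (∃ i x, T.lct (P i) D x = t') ∧
      ∃ N', ∀ i ≥ N', ∀ x ∈ T.exc (f i), (t' : WithTop ℝ) ≤ T.lct (P i) D x := by
  obtain ⟨M, hM⟩ := T.special (fun i => P (N + i)) (fun i => f (N + i)) D t ht ht1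
    (fun i => hD (N + i)) (fun i => h (N + i) (Nat.le_add_right N i))
  obtain ⟨N', hN', x0, hx0, hx0'⟩ := hinf (N + M)
  have h1 : ∀ i ≥ N', ∀ x ∈ T.exc (f i), (t : WithTop ℝ) < T.lct (P i) D x := by
    intro i hi
    obtain ⟨j, rfl⟩ := Nat.exists_eq_add_of_le (le_trans (le_trans (Nat.le_add_right N M) hN') hi)
    exact hM j (by omega)
  have hfin : {v | v ∈ Set.range (T.lct (P N') D) ∧ (t : WithTop ℝ) < v}.Finite :=
    (T.lct_finite (P N') D).subset fun v hv => hv.1
  have hne : {v | v ∈ Set.range (T.lct (P N') D) ∧ (t : WithTop ℝ) < v}.Nonempty :=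
    ⟨_, ⟨x0, rfl⟩, h1 N' le_rfl x0 hx0⟩
  obtain ⟨v, ⟨⟨xv, hxv⟩, htv⟩, hmin⟩ := Set.exists_min_image _ id hfin hne
  have hv1 : v ≤ 1 := (hmin _ ⟨⟨x0, rfl⟩, h1 N' le_rfl x0 hx0⟩).trans (T.lct_le_one _ _ _ hx0')
  have hvtop : v ≠ ⊤ := by
    rintro rfl
    exact absurd hv1 (not_le.2 (WithTop.coe_lt_top (1 : ℝ)))
  obtain ⟨t', rfl⟩ := WithTop.ne_top_iff_exists.1 hvtop
  have hprop : ∀ i ≥ N', ∀ y : T.Pt (P i),
      T.lct (P i) D y ≤ (t : WithTop ℝ) ∨ (t' : WithTop ℝ) ≤ T.lct (P i) D y := by
    intro i hi
    induction i, hi using Nat.le_induction with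
    | base =>
      intro y
      rcases le_or_gt (T.lct (P N') D y) (t : WithTop ℝ) with hy | hy
      · exact Or.inl hy
      · exact Or.inr (hmin _ ⟨⟨y, rfl⟩, hy⟩)
    | succ i hi ih =>
      intro y
      rcases T.lct_flip (f i) D (hD i) y with ⟨x, hx⟩ | ⟨x, hx, hxy⟩
      · rw [← hx]
        exact ih x
      · right
        refine le_trans ?_ hxy
        rcases ih x with h2 | h2
        · exact absurd (h1 i hi x hx) (not_lt.2 h2)
        · exact h2
  refine ⟨t', WithTop.coe_lt_coe.1 htv, by exact_mod_cast hv1, ⟨N', xv, hxv⟩, N', ?_⟩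
  intro i hi x hx
  rcases hprop i hi x with h2 | h2
  · exact absurd (h1 i hi x hx) (not_lt.2 h2)
  · exact h2

theorem coeff_const (P : ℕ → T.Pair) (f : ∀ i, T.Flip (P i) (P (i + 1))) (i : ℕ) :
    T.coeff (P i) = T.coeff (P 0) := by
  induction i with
  | zero => rfl
  | succ i ih => exact (T.coeff_flip (f i)).trans ih

/-- if `D` is effective and `(K + Δ_i + D_i) · R_i < 0` for all `i` then only finitely many flipping
loci meet the support of `D` -/
theorem finite_meet (P : ℕ → T.Pair) (f : ∀ i, T.Flip (P i) (P (i + 1))) (D : T.Div)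
    (hD : ∀ i, T.Neg (f i) D) :
    ∃ N, ∀ i ≥ N, Disjoint (T.exc (f i)) (T.supp (P i) D) := by
  by_contra hcon
  have hinf : ∀ N, ∃ i ≥ N, (T.exc (f i) ∩ T.supp (P i) D).Nonempty := by
    intro N
    by_contra hN
    refine hcon ⟨N, fun i hi => ?_⟩
    rw [Set.disjoint_iff_inter_eq_empty]
    by_contra hne
    exact hN ⟨i, hi, Set.nonempty_iff_ne_empty.2 hne⟩
  let A := {q : ℝ × ℕ // (0 ≤ q.1 ∧ q.1 ≤ 1) ∧
    ∀ i ≥ q.2, ∀ x ∈ T.exc (f i), (q.1 : WithTop ℝ) ≤ T.lct (P i) D x}
  have step : ∀ q : A, ∃ q' : A, q.1.1 < q'.1.1 ∧ ∃ i x, T.lct (P i) D x = q'.1.1 := by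
    rintro ⟨⟨t, N⟩, ht, hN⟩
    obtain ⟨t', h1, h1', h2, N', h3⟩ := raise T P f D hD hinf t ht.1 ht.2 N hN
    exact ⟨⟨⟨t', N'⟩, ⟨ht.1.trans h1.le, h1'⟩, h3⟩, h1, h2⟩
  choose g hg1 hg2 using step
  let q0 : A := ⟨⟨0, 0⟩, ⟨le_rfl, zero_le_one⟩, fun i _ x _ => (T.lct_pos (P i) D x).le⟩
  refine T.acc (T.coeff (P 0)) (T.coeff_finite _) D ⟨fun n => (g^[n + 1] q0).1.1, ?_, ?_⟩
  · refine strictMono_nat_of_lt_succ fun n => ?_
    rw [Function.iterate_succ_apply' g (n + 1) q0]
    exact hg1 _
  · intro n
    obtain ⟨i, x, hx⟩ := hg2 (g^[n] q0)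
    rw [← Function.iterate_succ_apply' g n q0] at hx
    exact ⟨P i, coeff_const T P f i, x, hx⟩

/-! ### Pencils -/

/-- `(K + Δ + E) · R < 0` for the divisor class `E` of the pencil -/
def NegOn {P P' : T.Pair} (f : T.Flip P P') (L : T.Pencil) : Prop :=
  T.Neg f (T.mem L none)

theorem NegOn.mem {P P' : T.Pair} {f : T.Flip P P'} {L : T.Pencil} (h : NegOn T f L)
    (τ : Option ℂ) : T.Neg f (T.mem L τ) :=
  T.neg_mem f L none τ h

/-- every member meets only finitely many flipping loci -/
theorem finite_member (P : ℕ → T.Pair) (f : ∀ i, T.Flip (P i) (P (i + 1))) (L : T.Pencil)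
    (hL : ∀ i, NegOn T (f i) L) (τ : Option ℂ) :
    ∃ N, ∀ i ≥ N, Disjoint (T.exc (f i)) (T.base L (P i)) ∧ τ ∉ T.val L (P i) '' T.exc (f i) := by
  obtain ⟨N, hN⟩ := finite_meet T P f (T.mem L τ) fun i => (hL i).mem T τ
  refine ⟨N, fun i hi => ⟨?_, ?_⟩⟩
  · rw [Set.disjoint_left]
    intro x hx hx'
    exact Set.disjoint_left.1 (hN i hi) hx ((T.mem_supp L _ τ x).2 (Or.inl hx'))
  · rintro ⟨x, hx, hx'⟩
    exact Set.disjoint_left.1 (hN i hi) hx ((T.mem_supp L _ τ x).2 (Or.inr hx'))

/-- the flipping loci finally lie in finitely many members each -/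
theorem finite_image (P : ℕ → T.Pair) (f : ∀ i, T.Flip (P i) (P (i + 1))) (L : T.Pencil)
    (hL : ∀ i, NegOn T (f i) L) :
    ∃ N, ∀ i ≥ N, Disjoint (T.exc (f i)) (T.base L (P i)) ∧
      (T.val L (P i) '' T.exc (f i)).Finite := by
  obtain ⟨N0, hN0⟩ := finite_member T P f L hL none
  by_contra hcon
  push Not at hcon
  -- the parameters which some cofinite image misses
  let B : Set (Option ℂ) := ⋃ i ∈ {i | (T.val L (P i) '' T.exc (f i))ᶜ.Finite},
    (T.val L (P i) '' T.exc (f i))ᶜ
  have hB : B.Countable := Set.Countable.biUnion (Set.to_countable _) fun i hi => hi.countable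
  have hne : ∃ τ, τ ∉ B := by
    by_contra hall
    push Not at hall
    have huniv : B = Set.univ := Set.eq_univ_of_forall hall
    rw [huniv, Set.countable_univ_iff] at hB
    have hC : Countable ℂ := Function.Injective.countable (Option.some_injective ℂ)
    exact not_countable_complex Set.countable_univ
  obtain ⟨τ, hτ⟩ := hne
  obtain ⟨N1, hN1⟩ := finite_member T P f L hL τ
  obtain ⟨i, hi, hi'⟩ := hcon (max N0 N1)
  have hd := (hN0 i (le_trans (le_max_left _ _) hi)).1
  rcases T.chevalley (f i) L hd with h | h
  · exact hi' hd h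
  · apply hτ
    exact Set.mem_biUnion (show i ∈ {i | (T.val L (P i) '' T.exc (f i))ᶜ.Finite} from h)
      (hN1 i (le_trans (le_max_right _ _) hi)).2

/-- **Theorem** (dimension four, any base): a sequence of flips with `(K + Δ_i + E_i) · R_i < 0` for
all large `i`, where `E` has two linearly independent sections, is finite. -/
theorem pencil (P : ℕ → T.Pair) (f : ∀ i, T.Flip (P i) (P (i + 1))) (L : T.Pencil) (N : ℕ)
    (hL : ∀ i ≥ N, NegOn T (f i) L) : False := by
  obtain ⟨M, hM⟩ := finite_image T (fun i => P (N + i)) (fun i => f (N + i)) L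
    fun i => hL (N + i) (Nat.le_add_right N i)
  let Q : ℕ → T.Pair := fun i => P (N + (M + i))
  let g : ∀ i, T.Flip (Q i) (Q (i + 1)) := fun i => f (N + (M + i))
  have hg : ∀ i, NegOn T (g i) L := fun i => hL (N + (M + i)) (Nat.le_add_right _ _)
  have hd : ∀ i, Disjoint (T.exc (g i)) (T.base L (Q i)) ∧
      (T.val L (Q i) '' T.exc (g i)).Finite := fun i => hM (M + i) (Nat.le_add_right M i)
  have hgood : ∀ i, Disjoint (T.val L (Q i) '' T.exc (g i)) (T.good L (Q i)) := by
    intro i
    by_contra hne
    rw [Set.disjoint_iff_inter_eq_empty, ← Ne, ← Set.nonempty_iff_ne_empty] at hne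
    obtain ⟨σ⟩ := T.germ (g i) L (hd i).1 (hd i).2 hne
    exact σ.elim
  have hmono : ∀ i, T.good L (Q 0) ⊆ T.good L (Q i) := by
    intro i
    induction i with
    | zero => exact subset_rfl
    | succ i ih => exact ih.trans (T.good_flip (g i) L (hd i).1 (hd i).2 (hgood i))
  have hfin := T.good_cofinite L (Q 0)
  choose n hn using fun τ => finite_member T Q g L hg τ
  obtain ⟨K, hK⟩ : ∃ K, ∀ τ ∈ (T.good L (Q 0))ᶜ, n τ ≤ K := by
    obtain ⟨K, hK⟩ := (hfin.image n).bddAbove
    exact ⟨K, fun τ hτ => hK ⟨τ, hτ, rfl⟩⟩
  obtain ⟨x, hx⟩ := T.exc_nonempty (g K)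
  have h1 : T.val L (Q K) x ∈ (T.good L (Q 0))ᶜ := fun h2 =>
    Set.disjoint_left.1 (hgood K) ⟨x, hx, rfl⟩ (hmono K h2)
  exact (hn _ K (hK _ h1)).2 ⟨x, hx, rfl⟩

/-- **Theorem** (dimension four, any base): a sequence of flips with `(K + Δ_i + D_i) · R_i < 0` for
all large `i`, where `D` is effective of Iitaka dimension at least one, is finite. -/
theorem mobile (P : ℕ → T.Pair) (f : ∀ i, T.Flip (P i) (P (i + 1))) (D : T.Div) (hD : T.Mobile D)
    (N : ℕ) (h : ∀ i ≥ N, T.Neg (f i) D) : False := by
  obtain ⟨L, hL⟩ := T.multiple D hD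
  obtain ⟨M, hM⟩ := finite_meet T (fun i => P (N + i)) (fun i => f (N + i)) D
    fun i => h (N + i) (Nat.le_add_right N i)
  refine pencil T P f L (N + M) fun i hi => ?_
  obtain ⟨j, rfl⟩ := Nat.exists_eq_add_of_le (le_trans (Nat.le_add_right N M) hi)
  exact hL (f (N + j)) none (hM j (by omega))

/-- **Theorem** (dimension four, any base): a sequence of flips with `(K + Δ_i + D_i) · R_i < 0` for
all `i`, where `D` is effective and the orbifold fundamental group of `X ∖ D` has a linear
representation with infinite image, is finite. -/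
theorem no_open (P : ℕ → T.Pair) (f : ∀ i, T.Flip (P i) (P (i + 1))) (D : T.Div)
    (hD : T.InfOrb (P 0) D) (h : ∀ i, T.Neg (f i) D) : False := by
  obtain ⟨N, hN⟩ := finite_meet T P f D h
  have h1 : ∀ i, T.InfOrb (P i) D := by
    intro i
    induction i with
    | zero => exact hD
    | succ i ih => exact T.orb_flip (f i) D ih
  obtain ⟨W0, hW0⟩ := T.braun (P N) D (h1 N)
  obtain ⟨W1, Ψ, hΨ⟩ := T.fibration W0 hW0
  have key : ∀ i, ∃ W : T.Res (P (N + i)) D, T.Contracts W Ψ := by
    intro i
    induction i with
    | zero => exact ⟨W1, hΨ⟩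
    | succ i ih =>
      obtain ⟨W, hW⟩ := ih
      exact T.common (f (N + i)) D W Ψ (hN (N + i) (Nat.le_add_right N i)) hW
  obtain ⟨L, hL⟩ := T.pullback Ψ
  refine pencil T P f L N fun i hi => ?_
  obtain ⟨j, rfl⟩ := Nat.exists_eq_add_of_le hi
  obtain ⟨W, hW⟩ := key j
  exact hL (f (N + j)) (T.takayama (f (N + j)) D W Ψ (hN (N + j) hi) hW)

/-! ### All dimensions -/

/-- Klt pairs `(X, Δ)` of all dimensions with projective surjective morphisms `π : X → S` with
connected fibres to normal quasi-projective varieties, over the complex numbers (this is no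
restriction, since a sequence of flips is defined over a countable field). -/
structure Tower where
  /-- the bases -/
  Base : Type
  dim : Base → ℕ
  /-- the klt pairs of dimension `n` over `S`; they need not be Q-factorial -/
  Pair : ℕ → Base → Type
  /-- the flips `φ : X → Z`, `φ⁺ : X⁺ → Z` over `S`: `φ` and `φ⁺` are small and not isomorphisms,
  `-(K + Δ)` is `φ`-ample, `K + Δ⁺` is `φ⁺`-ample; the relative Picard number is arbitrary -/
  Flip : ∀ {n : ℕ} {S : Base}, Pair n S → Pair n S → Type
  /-- the dimension of the image `T` of the exceptional locus in `S` -/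
  dimT : ∀ {n : ℕ} {S : Base} {P P' : Pair n S}, Flip P P' → ℕ
  /-- the largest dimension of a fibre of `C → S` -/
  fC : ∀ {n : ℕ} {S : Base} {P P' : Pair n S}, Flip P P' → ℕ
  /-- the largest dimension of a fibre of `C⁺ → S` -/
  fC' : ∀ {n : ℕ} {S : Base} {P P' : Pair n S}, Flip P P' → ℕ
  /-- Kawamata, Matsuda, Matsuki 1987, 5-1-17: if `k` is the dimension of the fibre of `φ` over a
  point `z` of `φ(C)` then the dimension of `C⁺` near the fibre over `z` is at least `n - 1 - k`;
  it is at most `dim T` plus the dimension of the fibres of `C⁺ → S` -/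
  kmm : ∀ {n : ℕ} {S : Base} {P P' : Pair n S} (f : Flip P P'),
    n ≤ fC f + fC' f + dimT f + 1
  /-- Bertini: let `S'` be a very general hyperplane section of `S`, `dim S ≥ 2`. The restrictions
  of the `X_i` to `S'` are klt pairs over `S'` (general members of a base point free linear system),
  the restrictions of the diagrams `X_i → Z_i ← X_(i+1)` are flips if `S'` meets `T_i`, i.e. if
  `dim T_i ≥ 1`, and then the dimension of `T_i` drops by one; otherwise they are isomorphisms, and
  are omitted. There are countably many conditions on `S'`. -/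
  cut : ∀ {n : ℕ} {S : Base} (P : ℕ → Pair (n + 1) S) (f : ∀ i, Flip (P i) (P (i + 1))),
    2 ≤ dim S → (∀ N, ∃ i ≥ N, 1 ≤ dimT (f i)) →
    ∃ (S' : Base) (P' : ℕ → Pair n S') (g : ∀ j, Flip (P' j) (P' (j + 1))) (ι : ℕ → ℕ),
      dim S' + 1 = dim S ∧ (∀ i, 1 ≤ dimT (f i) ↔ ∃ j, ι j = i) ∧ StrictMono ι ∧
      ∀ j, dimT (g j) + 1 = dimT (f (ι j))
  /-- the Q-factorial klt fourfolds over `S`, which may be a point -/
  four : Base → FlipTheory
  /-- the pull-back of a pencil of hyperplane sections of `S` is zero on all flipping rays -/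
  hyperplanes : ∀ S : Base, 1 ≤ dim S → ∃ L : (four S).Pencil,
    ∀ {P P' : (four S).Pair} (f : (four S).Flip P P') (τ : Option ℂ),
      (four S).Neg f ((four S).mem L τ)
  /-- `Q` is a small Q-factorialisation of the fourfold `P` -/
  Model : ∀ {S : Base}, Pair 4 S → (four S).Pair → Prop
  /-- Birkar, Cascini, Hacon, McKernan 2010 -/
  model_exists : ∀ {S : Base} (P : Pair 4 S), ∃ Q, Model P Q
  /-- `D` is ℝ-Cartier on `X` and `D ≡ c (K + Δ)` over `Z` with `c > -1`; if `X` is Q-factorial and
  the relative Picard number of `X → Z` is one, this means `(K + Δ + D) · R < 0` -/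
  Neg : ∀ {S : Base} {P P' : Pair 4 S}, Flip P P' → (four S).Div → Prop
  neg_zero : ∀ {S : Base} {P P' : Pair 4 S} (f : Flip P P'), Neg f (four S).zero
  /-- the minimal model program over `Z` with scaling, which starts with a Q-factorialisation of
  `X`, consists of flips, at least one, and ends with a Q-factorialisation of `X⁺` (Birkar, Cascini,
  Hacon, McKernan 2010); `D ≡ c (K + Δ)` in all its steps -/
  model_flip : ∀ {S : Base} {P P' : Pair 4 S} (f : Flip P P') (Q), Model P Q → ∃ Q', Model P' Q' ∧
      Relation.TransGen (fun A B => ∃ g : (four S).Flip A B, ∀ D, Neg f D → (four S).Neg g D) Q Q'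
  /-- flips over a point of projective varieties with morphisms to `S`, which agree on the common
  open set of `X` and `X⁺` -/
  AbsFlip : ∀ {n : ℕ} {S : Base}, Pair n S → Pair n S → Type
  /-- `X` is projective and `π : X → S` contracts all rational curves of `X`, for example because `S`
  contains no rational curve -/
  Contracts : ∀ {n : ℕ} {S : Base}, Pair n S → Prop
  /-- the cone of curves of `X` over `Z` is spanned by rational curves (Kawamata 1991) -/
  cone : ∀ {n : ℕ} {S : Base} {P P' : Pair n S}, Contracts P → AbsFlip P P' → Flip P P'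
  /-- the condition `InfOrb` of `FlipTheory` for a fourfold which need not be Q-factorial -/
  InfOrb : ∀ {S : Base}, Pair 4 S → (four S).Div → Prop
  orb_flip : ∀ {S : Base} {P P' : Pair 4 S}, Flip P P' → ∀ D, InfOrb P D → InfOrb P' D
  /-- a small Q-factorialisation is an isomorphism over `X_reg` -/
  orb_model : ∀ {S : Base} (P : Pair 4 S) (Q : (four S).Pair) (D : (four S).Div), Model P Q →
    InfOrb P D → (four S).InfOrb Q D

/-- a relation with an infinite chain for its transitive closure has an infinite chain -/
theorem chain_of_transGen {α : Type} (r : α → α → Prop) (c : ℕ → α)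
    (h : ∀ i, Relation.TransGen r (c i) (c (i + 1))) : ∃ d : ℕ → α, ∀ i, r (d i) (d (i + 1)) := by
  by_contra hcon
  push Not at hcon
  have hwf : WellFounded (fun b a => r a b) := by
    refine ⟨fun a => ?_⟩
    by_contra ha
    rw [not_acc_iff_exists_descending_chain] at ha
    obtain ⟨g, -, hg⟩ := ha
    obtain ⟨i, hi⟩ := hcon g
    exact hi (hg i)
  have hwf' : WellFounded (fun b a => Relation.TransGen r a b) :=
    Subrelation.wf (fun {b a} hab => Relation.transGen_swap.1 hab) hwf.transGen
  obtain ⟨_, ⟨i, rfl⟩, hmin⟩ := hwf'.has_min (Set.range c) (Set.range_nonempty c)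
  exact hmin _ ⟨i + 1, rfl⟩ (h i)

/-- a property which is preserved along a relation can be added to it -/
theorem transGen_and {α : Type} (r : α → α → Prop) (I : α → Prop) (hI : ∀ a b, r a b → I a → I b)
    {a b : α} (h : Relation.TransGen r a b) (ha : I a) :
    Relation.TransGen (fun x y => r x y ∧ I x) a b ∧ I b := by
  induction h with
  | single h => exact ⟨Relation.TransGen.single ⟨h, ha⟩, hI _ _ h ha⟩
  | tail _ h ih => exact ⟨ih.1.tail ⟨h, ih.2⟩, hI _ _ h ih.2⟩

/-- an infinite sequence of flips of klt fourfolds gives one of Q-factorial klt fourfolds -/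
theorem factorial (U : Tower) {S : U.Base} (P : ℕ → U.Pair 4 S)
    (f : ∀ i, U.Flip (P i) (P (i + 1))) : ∃ (Q : ℕ → (U.four S).Pair)
      (g : ∀ i, (U.four S).Flip (Q i) (Q (i + 1))),
      (∀ D, (∀ i, U.Neg (f i) D) → ∀ i, (U.four S).Neg (g i) D) ∧
      ∀ D, U.InfOrb (P 0) D → (U.four S).InfOrb (Q 0) D := by
  classical
  let r : (U.four S).Pair → (U.four S).Pair → Prop := fun A B =>
    ∃ g : (U.four S).Flip A B, ∀ D, (∀ i, U.Neg (f i) D) → (U.four S).Neg g D
  let I : (U.four S).Pair → Prop := fun A => ∀ D, U.InfOrb (P 0) D → (U.four S).InfOrb A D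
  obtain ⟨Q0, hQ0⟩ := U.model_exists (P 0)
  have step : ∀ i, ∀ Q, U.Model (P i) Q → ∃ Q', U.Model (P (i + 1)) Q' ∧
      Relation.TransGen r Q Q' := by
    intro i Q hQ
    obtain ⟨Q', h1, h2⟩ := U.model_flip (f i) Q hQ
    exact ⟨Q', h1, h2.lift id fun A B ⟨g, hg⟩ => ⟨g, fun D hD => hg D (hD i)⟩⟩
  choose g hg1 hg2 using step
  let c : ∀ i, {Q // U.Model (P i) Q} := fun i =>
    Nat.rec ⟨Q0, hQ0⟩ (fun i Q => ⟨g i Q.1 Q.2, hg1 i Q.1 Q.2⟩) i
  have hc : ∀ i, Relation.TransGen r (c i).1 (c (i + 1)).1 := fun i => hg2 i (c i).1 (c i).2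
  have hI : ∀ A B, r A B → I A → I B := fun A B ⟨g, _⟩ hA D hD =>
    (U.four S).orb_flip g D (hA D hD)
  have hcI : ∀ i, I (c i).1 := by
    intro i
    induction i with
    | zero => exact fun D hD => U.orb_model (P 0) Q0 D hQ0 hD
    | succ i ih => exact (transGen_and r I hI (hc i) ih).2
  obtain ⟨d, hd⟩ := chain_of_transGen (fun A B => r A B ∧ I A) (fun i => (c i).1)
    fun i => (transGen_and r I hI (hc i) (hcI i)).1
  choose fd hfd using fun i => (hd i).1
  exact ⟨d, fd, fun D hD i => hfd i D hD, (hd 0).2⟩

/-- there is no infinite sequence of flips of klt fourfolds over a base of positive dimension -/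
theorem no_four (U : Tower) {S : U.Base} (h : 1 ≤ U.dim S) (P : ℕ → U.Pair 4 S)
    (f : ∀ i, U.Flip (P i) (P (i + 1))) : False := by
  obtain ⟨Q, g, -, -⟩ := factorial U P f
  obtain ⟨L, hL⟩ := U.hyperplanes S h
  exact pencil (U.four S) Q g L 0 fun i _ => hL _ none

/-- there is no infinite sequence of flips of klt fourfolds which are negative for `K + Δ + D`, where
`D` is effective of Iitaka dimension at least one -/
theorem no_mobile (U : Tower) {S : U.Base} (P : ℕ → U.Pair 4 S)
    (f : ∀ i, U.Flip (P i) (P (i + 1))) (D : (U.four S).Div) (hD : (U.four S).Mobile D) (N : ℕ)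
    (h : ∀ i ≥ N, U.Neg (f i) D) : False := by
  obtain ⟨Q, g, hg, -⟩ := factorial U (fun i => P (N + i)) (fun i => f (N + i))
  exact mobile (U.four S) Q g D hD 0 fun i _ =>
    hg D (fun i => h (N + i) (Nat.le_add_right N i)) i

/-- there is no infinite sequence of flips of klt fourfolds which are negative for `K + Δ + D`, where
`D` is effective and the orbifold fundamental group of `X ∖ D` has a complex linear representation
with infinite image -/
theorem no_linear (U : Tower) {S : U.Base} (P : ℕ → U.Pair 4 S)
    (f : ∀ i, U.Flip (P i) (P (i + 1))) (D : (U.four S).Div) (hD : U.InfOrb (P 0) D) (N : ℕ)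
    (h : ∀ i ≥ N, U.Neg (f i) D) : False := by
  have h1 : ∀ i, U.InfOrb (P i) D := by
    intro i
    induction i with
    | zero => exact hD
    | succ i ih => exact U.orb_flip (f i) D ih
  obtain ⟨Q, g, hg, hQ⟩ := factorial U (fun i => P (N + i)) (fun i => f (N + i))
  exact no_open (U.four S) Q g D (hQ D (h1 N))
    (hg D fun i => h (N + i) (Nat.le_add_right N i))

/-- only finitely many flips have an image of dimension at least `n - 4` in `S` -/
theorem bound (U : Tower) (m : ℕ) : ∀ {S : U.Base}, m + 1 ≤ U.dim S →
    ∀ (P : ℕ → U.Pair (m + 4) S) (f : ∀ i, U.Flip (P i) (P (i + 1))),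
    ∃ N, ∀ i ≥ N, U.dimT (f i) < m := by
  induction m with
  | zero =>
    intro S h P f
    exact (no_four U h P f).elim
  | succ m ih =>
    intro S h P f
    by_contra hcon
    push Not at hcon
    have hinf : ∀ N, ∃ i ≥ N, 1 ≤ U.dimT (f i) := fun N => by
      obtain ⟨i, hi, hm⟩ := hcon N
      exact ⟨i, hi, by omega⟩
    obtain ⟨S', P', g, ι, hS', hι, hmono, hdim⟩ := U.cut (n := m + 4) P f (by omega) hinf
    obtain ⟨N, hN⟩ := ih (S := S') (by omega) P' g
    obtain ⟨i, hi, hm⟩ := hcon (ι N)
    obtain ⟨j, rfl⟩ := (hι i).1 (by omega)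
    have hj : N ≤ j := hmono.le_iff_le.1 hi
    have h1 := hN j hj
    have h2 := hdim j
    omega

/-- one step: a flip over `S` or, if `X → S` contracts all rational curves, a flip over a point -/
inductive Step (U : Tower) {n : ℕ} {S : U.Base} (P P' : U.Pair n S) : Type
  | over (f : U.Flip P P') : Step U P P'
  | point (h : U.Contracts P) (f : U.AbsFlip P P') : Step U P P'

/-- it is a flip over `S` in both cases -/
def Step.flip {U : Tower} {n : ℕ} {S : U.Base} {P P' : U.Pair n S} : Step U P P' → U.Flip P P'
  | .over f => f
  | .point h f => U.cone h f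

/-- **Main theorem**. Let `X_0 ⇢ X_1 ⇢ ⋯` be an infinite sequence of flips over `S` of klt pairs of
dimension `n ≥ 4`. (1) If `n = 4` then `S` is a point. Let `D` be an effective divisor, whose
components have coefficients at least one in `Δ + D`, such that `(K + Δ_i + D_i) · R_i < 0` for all
large `i` (more generally `D_i ≡ c (K + Δ_i)` over `Z_i` for some `c > -1`, if the relative Picard
numbers are arbitrary). Then the Iitaka dimension of `D` is less than one, and every complex linear
representation of the orbifold fundamental group of `(X_0 ∖ D_0, Δ_0)` has finite image (so for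
all `i`). (2) If `n > 4` and `dim S ≥ n - 3` then only finitely many flips have an image `T` of
dimension at least `n - 4` in `S`, and for some flip the fibres over `S` of the exceptional loci `C`
and `C⁺` have dimensions with sum at least four. -/
theorem result (U : Tower) {S : U.Base} :
    (∀ (P : ℕ → U.Pair 4 S) (f : ∀ i, Step U (P i) (P (i + 1))),
      U.dim S = 0 ∧ ∀ D : (U.four S).Div, {i | ¬ U.Neg (f i).flip D}.Finite →
        ¬ (U.four S).Mobile D ∧ ¬ U.InfOrb (P 0) D) ∧
    ∀ n : ℕ, 4 < n → n ≤ U.dim S + 3 → ∀ (P : ℕ → U.Pair n S) (f : ∀ i, Step U (P i) (P (i + 1))),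
      {i | n ≤ U.dimT (f i).flip + 4}.Finite ∧ ∃ i, 4 ≤ U.fC (f i).flip + U.fC' (f i).flip := by
  refine ⟨fun P f => ⟨?_, fun D hfin => ?_⟩, fun n hn hS P f => ?_⟩
  · by_contra h
    exact no_four U (Nat.one_le_iff_ne_zero.2 h) P fun i => (f i).flip
  · obtain ⟨N, hN⟩ := hfin.bddAbove
    have hneg : ∀ i ≥ N + 1, U.Neg (f i).flip D := by
      intro i hi
      by_contra hcon
      have := hN hcon
      omega
    exact ⟨fun hD => no_mobile U P (fun i => (f i).flip) D hD (N + 1) hneg,
      fun hD => no_linear U P (fun i => (f i).flip) D hD (N + 1) hneg⟩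
  · obtain ⟨m, rfl⟩ := Nat.exists_eq_add_of_le' hn.le
    have h1 : {i | m + 4 ≤ U.dimT (f i).flip + 4}.Finite := by
      obtain ⟨N, hN⟩ := bound U m (by omega) P fun i => (f i).flip
      refine (Set.finite_lt_nat N).subset fun i hi => ?_
      by_contra hcon
      have h2 := hN i (not_lt.1 hcon)
      have h3 : m + 4 ≤ U.dimT (f i).flip + 4 := hi
      omega
    refine ⟨h1, ?_⟩
    by_contra hcon
    push Not at hcon
    refine Set.infinite_univ (h1.subset fun i _ => ?_)
    change m + 4 ≤ U.dimT (f i).flip + 4
    have h3 := U.kmm (f i).flip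
    have h4 := hcon i
    omega

end Pool.Agent.Results.MP_89a3f8_ag.FlipsAndPencils
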