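import Mathlib
import Pool.Agent.Work.MP_89a3f8_vol.Main

/-!
# MP_89a3f8_ag: termination of flips for relative Picard number three and `-(K + Δ)` big

Let `(X, Δ)` be a `ℚ`-factorial klt pair of any dimension, projective over `S`, with `K + Δ` not
pseudo-effective over `S`. If `-(K + Δ)` is big over `S` and the relative Picard number is at most
three, every sequence of flips over `S` is finite. If the Picard number is three and there is an
infinite sequence, the nef cones converge to a half plane bounded by the line of `K + Δ`, and the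
plane of this half plane supports the pseudo-effective cone. The same is true for the sequences
directed by a three-dimensional space of classes.

`VolSystem V`, `V = N¹(X/S)`, records the nef and pseudo-effective cones, the negativity lemma, the
finiteness of models for big boundaries, log discrepancies, alpha invariants, the local-to-global
inequality, the bound of the Cartier indices by the local volumes and the cone theorem with the
bound for the lengths of extremal rays; see `Pool.Agent.Work.MP_89a3f8_vol.System`.
-/

set_option autoImplicit false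

namespace Pool.Agent.Results.MP_89a3f8_ag.PicardThree

open Pool.Agent.Work.MP_89a3f8 Pool.Agent.Work.MP_89a3f8_vol Set

variable {V : Type} [NormedAddCommGroup V] [NormedSpace ℝ V]

/-- A space `P` of classes directs the sequence of flips if every `X k` has an ample class in `P`
and the classes of `P` which are nef on `X k` and on `X (k+1)` span `ker (R k) ∩ P`. (The space of
all classes directs every sequence.) -/
def Directed (M : VolSystem V) (X : ℕ → M.Model) (R : ℕ → V →ₗ[ℝ] ℝ) (P : Submodule ℝ V) : Prop :=
  (∀ k, (interior (M.nef (X k)) ∩ (P : Set V)).Nonempty) ∧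
  ∀ k, Submodule.span ℝ (M.nef (X k) ∩ M.nef (X (k + 1)) ∩ (P : Set V)) = LinearMap.ker (R k) ⊓ P

/-- The traces on `P` of the nef cones of the models `X k` converge to the half plane
`a κ + b θ`, `b ≥ 0`, and the plane of this half plane supports the trace of the pseudo-effective
cone: there is a linear form `r`, not zero on `P`, with `r κ = r θ = 0` and `r ≥ 0` on
`eff ∩ P`. -/
def SupportingLimit (M : VolSystem V) (X : ℕ → M.Model) (P : Submodule ℝ V) : Prop :=
  ∃ (θ : V) (r : V →ₗ[ℝ] ℝ), θ ∈ P ∧ θ ∉ Submodule.span ℝ {M.kappa} ∧ (∃ D ∈ P, r D ≠ 0) ∧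
    r M.kappa = 0 ∧ r θ = 0 ∧ (∀ D ∈ M.eff, D ∈ P → 0 ≤ r D) ∧
    ∀ ε : ℝ, 0 < ε → ∃ k₀, ∀ k, k₀ ≤ k → ∀ D ∈ M.nef (X k), D ∈ P →
      ∃ a b : ℝ, 0 ≤ b ∧ ‖D - (a • M.kappa + b • θ)‖ ≤ ε * ‖D‖

theorem result [FiniteDimensional ℝ V] (M : VolSystem V) (hkappa : M.kappa ∉ M.eff) :
    -- termination for Picard number at most three if `-(K + Δ)` is big
    (Module.finrank ℝ V ≤ 3 → -M.kappa ∈ interior M.eff →
      ¬ ∃ (X : ℕ → M.Model) (R : ℕ → V →ₗ[ℝ] ℝ), M.IsFlipSequence X R) ∧
    -- the limit of an infinite sequence for Picard number three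
    (Module.finrank ℝ V = 3 → ∀ (X : ℕ → M.Model) (R : ℕ → V →ₗ[ℝ] ℝ),
      M.IsFlipSequence X R → SupportingLimit M X ⊤) ∧
    -- sequences directed by a three-dimensional space spanned by classes of Weil divisors
    ∀ (X : ℕ → M.Model) (R : ℕ → V →ₗ[ℝ] ℝ) (P : Submodule ℝ V), M.IsFlipSequence X R →
      Module.finrank ℝ P = 3 → M.kappa ∈ P → Submodule.span ℝ ((M.weil : Set V) ∩ P) = P →
      Directed M X R P → SupportingLimit M X P ∧ -M.kappa ∉ interior M.eff := by
  refine ⟨?_, ?_, ?_⟩
  · rintro h3 hbig ⟨X, R, h⟩
    exact anti_big_rank_three M hkappa hbig h3 h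
  · intro h3 X R h
    refine directed M hkappa h ⊤ ?_ Submodule.mem_top ?_ ?_ ?_
    · rw [finrank_top, h3]
    · rw [Submodule.top_coe, inter_univ]
      exact M.weil_span
    · intro k
      obtain ⟨A, hA⟩ := M.ample_nonempty (X k)
      exact ⟨A, hA, Submodule.mem_top⟩
    · intro k
      rw [inf_top_eq, Submodule.top_coe, inter_univ]
      exact (h k).1
  · intro X R P h h3 hP hweil hdir
    exact ⟨directed M hkappa h P h3 hP hweil hdir.1 hdir.2, fun hbig =>
      directed_anti_big M hkappa hbig h P h3 hP hweil hdir.1 hdir.2⟩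

end Pool.Agent.Results.MP_89a3f8_ag.PicardThree
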