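import Mathlib
import Pool.Agent.Work.MP_89a3f8_vol.Main

/-!
# MP_89a3f8_ag: the flipping curves accumulate at `(K + Δ)`-trivial movable curves, or the sequence
of flips is bounded

Every infinite sequence of flips of a `ℚ`-factorial klt pair over `S`, in any dimension, is of one
of two kinds. Either some nonzero class `r` of movable curves with `(K + Δ) · r = 0` is in the
closed convex cone spanned by the flipping curves of every tail; or, from some model on, the local
volumes are bounded below, the Cartier indices of the Weil divisors are bounded, there are only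
finitely many numerical classes of flipping curves and, if `Δ` is rational, no flip changes a log
discrepancy which is at most one.

`VolSystem V`, `V = N¹(X/S)`, records the nef and pseudo-effective cones, the negativity lemma, the
finiteness of models for big boundaries, log discrepancies, alpha invariants, the local-to-global
inequality, the bound of the Cartier indices by the local volumes and the cone theorem with the
bound for the lengths of extremal rays; see `Pool.Agent.Work.MP_89a3f8_vol.System`.
-/

set_option autoImplicit false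

namespace Pool.Agent.Results.MP_89a3f8_ag.VolumeDichotomy

open Pool.Agent.Work.MP_89a3f8 Pool.Agent.Work.MP_89a3f8_vol Set

variable {V : Type} [NormedAddCommGroup V] [NormedSpace ℝ V]

/-- There is `r ≠ 0`, nonnegative on the pseudo-effective cone, with `r κ = 0`, which is in the
closed convex cone spanned by the flipping rays `R i`, `i ≥ j`, for every `j`. -/
def TrivialLimit (M : VolSystem V) (R : ℕ → V →ₗ[ℝ] ℝ) : Prop :=
  ∃ r : V →L[ℝ] ℝ, r ≠ 0 ∧ (∀ D ∈ M.eff, 0 ≤ r D) ∧ r M.kappa = 0 ∧
    ∀ j, r ∈ closure (Submodule.span NNReal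
      {φ : V →L[ℝ] ℝ | ∃ i, j ≤ i ∧ ∀ D, φ D = R i D} : Set (V →L[ℝ] ℝ))

/-- From some `j` on: the local volumes are at least `ε`; the index of every Weil divisor divides
`N`; the flipping rays are spanned by finitely many classes; if some multiple of `K + Δ` is a Weil
divisor with integral coefficients, the log discrepancies which are at most one do not change. -/
def BoundedTail (M : VolSystem V) (X : ℕ → M.Model) (R : ℕ → V →ₗ[ℝ] ℝ) : Prop :=
  ∃ j, (∃ ε : ℝ, 0 < ε ∧ ∀ k, j ≤ k → ε ≤ M.lvol (X k)) ∧
    (∃ N : ℕ, 0 < N ∧ ∀ k, j ≤ k → M.index (X k) ∣ N) ∧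
    (∃ Φ : Set (V →ₗ[ℝ] ℝ), Φ.Finite ∧ ∀ k, j ≤ k → ∃ c : ℝ, 0 < c ∧ c • R k ∈ Φ) ∧
    ((∃ m : ℕ, 0 < m ∧ (m : ℝ) • M.kappa ∈ M.weil) →
      ∀ k, j ≤ k → ∀ v, M.ld (X j) v ≤ 1 → M.ld (X k) v = M.ld (X j) v)

theorem result [FiniteDimensional ℝ V] (M : VolSystem V) (X : ℕ → M.Model)
    (R : ℕ → V →ₗ[ℝ] ℝ) (h : M.IsFlipSequence X R) :
    (TrivialLimit M R ∨ BoundedTail M X R) ∧
    -- if `K + Δ` or `-(K + Δ)` is big, the first case is impossible
    (M.kappa ∈ interior M.eff ∨ -M.kappa ∈ interior M.eff → BoundedTail M X R) := by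
  have hd := dichotomy M h
  refine ⟨hd, fun hbig => ?_⟩
  rcases hd with ⟨r, hr0, hr1, hrk, -⟩ | hb
  · exfalso
    rcases hbig with hb | hb
    · have := form_pos M.toNefSystem hr0 hr1 hb
      rw [hrk] at this
      exact lt_irrefl _ this
    · have := form_pos M.toNefSystem hr0 hr1 hb
      rw [map_neg, hrk, neg_zero] at this
      exact lt_irrefl _ this
  · exact hb

end Pool.Agent.Results.MP_89a3f8_ag.VolumeDichotomy
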